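import Pool.Agent.T6.H59.FI.Stm

/-!
# The inequality of SSE is a linear expansion for small `p`
-/

set_option autoImplicit false

namespace Pool.Agent.T6.H59.FI

namespace ANAL

theorem upper (x : ℝ) (_ : 0 ≤ x) (h1 : x < 1) :
    Real.binEntropy x ≤ x * Real.log x⁻¹ + x := by
  unfold Real.binEntropy
  have h2 : 0 < 1 - x := by linarith
  have h3 : Real.log (1 - x)⁻¹ ≤ (1 - x)⁻¹ - 1 := Real.log_le_sub_one_of_pos (by positivity)
  have h4 : (1 - x) * Real.log (1 - x)⁻¹ ≤ (1 - x) * ((1 - x)⁻¹ - 1) :=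
    mul_le_mul_of_nonneg_left h3 h2.le
  have h5 : (1 - x) * ((1 - x)⁻¹ - 1) = x := by
    field_simp
    ring
  linarith

theorem lower (x : ℝ) (h0 : 0 ≤ x) (h1 : x ≤ 1) :
    x * Real.log x⁻¹ ≤ Real.binEntropy x := by
  unfold Real.binEntropy
  rcases h1.eq_or_lt with rfl | h1
  · simp
  have h2 : 0 < 1 - x := by linarith
  have h3 : 0 ≤ Real.log (1 - x)⁻¹ := by
    apply Real.log_nonneg
    rw [one_le_inv₀ h2]
    linarith
  have h4 : 0 ≤ (1 - x) * Real.log (1 - x)⁻¹ := by positivity
  linarith

end ANAL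

theorem stmANAL : StmANAL := by
  intro d hd
  have hd' : (4 : ℝ) ≤ d := by exact_mod_cast hd
  set y : ℝ := 4 * d * (1 + d) + 1 with hy
  have hy1 : 2 * (d : ℝ) ≤ y := by rw [hy]; nlinarith
  have hexp : Real.exp (-y) ≤ 1 / (1 + y) := by
    rw [Real.exp_neg, ← one_div]
    apply one_div_le_one_div_of_le (by linarith)
    have := Real.add_one_le_exp y
    linarith
  have hp0 : Real.exp (-y) ≤ 1 / (2 * d) :=
    hexp.trans (one_div_le_one_div_of_le (by linarith) (by linarith))
  refine ⟨Real.exp (-y), Real.exp_pos _, hexp.trans ?_, ?_⟩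
  · apply one_div_le_one_div_of_le (by norm_num)
    linarith
  intro p N hp hpp hN0 hN1 hE
  rcases hp.eq_or_lt with rfl | hp
  · simpa using hN0
  by_contra hlt
  push Not at hlt
  set c : ℝ := (d : ℝ) - 5 / 4 with hc
  have hcd : c < d := by rw [hc]; linarith
  have hc1 : 1 ≤ c := by rw [hc]; linarith
  have hcp : c * p ≤ 1 / 2 := by
    calc c * p ≤ d * (1 / (2 * d)) := by
          apply mul_le_mul hcd.le (hpp.trans hp0) hp.le (by linarith)
      _ = 1 / 2 := by field_simp
  have hcp0 : 0 < c * p := by positivity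
  have hmono : Real.binEntropy N ≤ Real.binEntropy (c * p) := by
    apply Real.binEntropy_strictMonoOn.monotoneOn _ _ hlt.le
    · constructor
      · exact hN0
      · rw [← one_div]; linarith
    · constructor
      · exact hcp0.le
      · rw [← one_div]; exact hcp
  have hup := ANAL.upper (c * p) hcp0.le (by linarith)
  have hp1 : p ≤ 1 := by nlinarith
  have hlow := ANAL.lower p hp.le hp1
  have hlog : Real.log (c * p)⁻¹ = Real.log p⁻¹ - Real.log c := by
    rw [mul_inv, Real.log_mul (by positivity) (by positivity), Real.log_inv c]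
    ring
  have hlogc : 0 ≤ Real.log c := Real.log_nonneg hc1
  have hlog2 : Real.log 2 ≤ 1 := by
    have := Real.log_two_lt_d9
    linarith
  have hlog20 : 0 < Real.log 2 := Real.log_pos (by norm_num)
  have h1 : ((d : ℝ) - 1) * (p * Real.log p⁻¹) ≤
      c * p * (Real.log p⁻¹ - Real.log c) + c * p + c * p * (d * Real.log 2) := by
    calc ((d : ℝ) - 1) * (p * Real.log p⁻¹) ≤ ((d : ℝ) - 1) * Real.binEntropy p :=
          mul_le_mul_of_nonneg_left hlow (by linarith)
      _ ≤ Real.binEntropy N + N * (d * Real.log 2) := hE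
      _ ≤ Real.binEntropy (c * p) + c * p * (d * Real.log 2) := by
          have : N * (d * Real.log 2) ≤ c * p * (d * Real.log 2) :=
            mul_le_mul_of_nonneg_right hlt.le (by positivity)
          linarith
      _ ≤ _ := by rw [hlog] at hup; linarith
  have h2 : ((d : ℝ) - 1) * Real.log p⁻¹ ≤
      c * (Real.log p⁻¹ - Real.log c) + c + c * (d * Real.log 2) := by
    have : p * (((d : ℝ) - 1) * Real.log p⁻¹) ≤
      p * (c * (Real.log p⁻¹ - Real.log c) + c + c * (d * Real.log 2)) := by
      nlinarith [h1]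
    exact le_of_mul_le_mul_left this hp
  have h3 : Real.log p⁻¹ ≤ 4 * (c * (1 + d)) := by
    have h4 : c * (d * Real.log 2) ≤ c * d := by
      have : (d : ℝ) * Real.log 2 ≤ d := by nlinarith
      exact mul_le_mul_of_nonneg_left this (by linarith)
    have h5 : 0 ≤ c * Real.log c := by positivity
    have h6 : ((d : ℝ) - 1) = c + 1 / 4 := by rw [hc]; ring
    rw [h6] at h2
    nlinarith
  have h7 : y ≤ Real.log p⁻¹ := by
    rw [Real.log_inv]
    have : Real.log p ≤ Real.log (Real.exp (-y)) := Real.log_le_log hp hpp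
    rw [Real.log_exp] at this
    linarith
  have h8 : c * (1 + d) ≤ d * (1 + d) := mul_le_mul_of_nonneg_right hcd.le (by linarith)
  rw [hy] at h7
  linarith

end Pool.Agent.T6.H59.FI
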