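import Pool.Agent.T6.H59.FI.Stm

/-!
# The configuration at any time is i.i.d.
-/

set_option autoImplicit false

namespace Pool.Agent.T6.H59.FI

open MeasureTheory Measure

namespace AT

open Classical in
/-- the one-site map -/
noncomputable def g {E : Type*} (t : ℝ) (e : E3 E) : E :=
  if (e.2.2 : ℝ) < t then e.2.1 else e.1

theorem measurable_g {E : Type*} [MeasurableSpace E] (t : ℝ) : Measurable (g (E := E) t) := by
  classical
  unfold g
  refine Measurable.ite ?_ (measurable_fst.comp measurable_snd) measurable_fst
  have h : Measurable (fun e : E3 E => ((e.2.2 : unitInterval) : ℝ)) :=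
    measurable_subtype_coe.comp (measurable_snd.comp measurable_snd)
  exact measurableSet_lt h measurable_const

theorem map_g {E : Type*} [MeasurableSpace E] (lam : Measure E) [IsProbabilityMeasure lam]
    (t : ℝ) : (lam3 lam).map (g t) = lam := by
  classical
  ext C hC
  rw [Measure.map_apply (measurable_g t) hC]
  -- decompose
  have hT : MeasurableSet {e : E3 E | ((e.2.2 : unitInterval) : ℝ) < t} :=
    measurableSet_lt (measurable_subtype_coe.comp (measurable_snd.comp measurable_snd))
      measurable_const
  have hU : MeasurableSet {u : unitInterval | (u : ℝ) < t} :=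
    measurableSet_lt measurable_subtype_coe measurable_const
  have hsplit : (g t) ⁻¹' C =
      (Set.univ ×ˢ (C ×ˢ {u : unitInterval | (u : ℝ) < t})) ∪
      (C ×ˢ (Set.univ ×ˢ {u : unitInterval | (u : ℝ) < t}ᶜ)) := by
    ext ⟨a, b, u⟩
    simp only [g, Set.mem_preimage, Set.mem_union, Set.mem_prod, Set.mem_univ, true_and,
      Set.mem_setOf_eq, Set.mem_compl_iff]
    by_cases h : (u : ℝ) < t
    · simp [h]
    · simp [h]
  rw [hsplit, measure_union]
  · unfold lam3
    rw [Measure.prod_prod, Measure.prod_prod, Measure.prod_prod, Measure.prod_prod]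
    simp only [measure_univ, one_mul]
    rw [← mul_add, measure_add_measure_compl hU, measure_univ, mul_one]
  · rw [Set.disjoint_left]
    rintro ⟨a, b, u⟩ h1 h2
    simp only [Set.mem_prod, Set.mem_univ, true_and, Set.mem_setOf_eq,
      Set.mem_compl_iff] at h1 h2
    exact h2.2 h1.2
  · exact hC.prod (MeasurableSet.univ.prod hU.compl)

end AT

theorem stmAT : StmAT := by
  intro Γ E _ _ lam _ t
  have h : (at' (Γ := Γ) (E := E) t) = fun x v => AT.g t (x v) := by
    funext x v
    simp [at', AT.g]
  constructor
  · rw [h]
    exact measurable_pi_lambda _ fun v => (AT.measurable_g t).comp (measurable_pi_apply v)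
  · rw [h]
    unfold bern
    have := infinitePi_map_pi (μ := fun _ : Γ => lam3 lam) (f := fun _ : Γ => AT.g (E := E) t)
      (fun _ => AT.measurable_g t)
    rw [this]
    congr 1
    funext v
    exact AT.map_g lam t

end Pool.Agent.T6.H59.FI
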