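import Mathlib

/-!
# Coding a sequence of bits in a real number
-/

set_option autoImplicit false

namespace Pool.Agent.T6.H59.FI

open MeasureTheory

/-- the real number with ternary digits `b n` -/
noncomputable def code (b : ℕ → ZMod 2) : ℝ := ∑' n, if b n = 0 then 0 else ((1 : ℝ) / 3) ^ n

theorem code_summable (b : ℕ → ZMod 2) :
    Summable (fun n => if b n = 0 then (0 : ℝ) else ((1 : ℝ) / 3) ^ n) := by
  refine Summable.of_nonneg_of_le (fun n => ?_) (fun n => ?_)
    (summable_geometric_of_lt_one (r := (1 : ℝ) / 3) (by norm_num) (by norm_num))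
  · split_ifs <;> positivity
  · split_ifs
    · positivity
    · exact le_refl _

theorem code_nonneg (b : ℕ → ZMod 2) : 0 ≤ code b := by
  refine tsum_nonneg fun n => ?_
  split_ifs <;> positivity

theorem code_le (b : ℕ → ZMod 2) : code b ≤ 3 / 2 := by
  have h := tsum_geometric_of_lt_one (r := (1 : ℝ) / 3) (by norm_num) (by norm_num)
  have : code b ≤ ∑' n : ℕ, ((1 : ℝ) / 3) ^ n := by
    refine (code_summable b).tsum_le_tsum (fun n => ?_)
      (summable_geometric_of_lt_one (r := (1 : ℝ) / 3) (by norm_num) (by norm_num))
    split_ifs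
    · positivity
    · exact le_refl _
  rw [h] at this
  norm_num at this ⊢
  linarith

theorem code_injective : Function.Injective code := by
  have key : ∀ b, code b = Cardinal.cantorFunction (1 / 3) (fun n => decide (b n ≠ 0)) := by
    intro b
    unfold code Cardinal.cantorFunction Cardinal.cantorFunctionAux
    refine tsum_congr fun n => ?_
    by_cases h : b n = 0 <;> simp [h]
  intro b b' h
  rw [key, key] at h
  have h2 := Cardinal.cantorFunction_injective (c := 1 / 3) (by norm_num) (by norm_num) h
  funext n
  have h3 := congrFun h2 n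
  simp only [decide_eq_decide] at h3
  have : ∀ x y : ZMod 2, (x ≠ 0 ↔ y ≠ 0) → x = y := by decide
  exact this _ _ h3

theorem measurable_code : Measurable code := by
  have h1 : ∀ N : ℕ, Measurable (fun b : ℕ → ZMod 2 => ∑ n ∈ Finset.range N,
      if b n = 0 then (0 : ℝ) else ((1 : ℝ) / 3) ^ n) := by
    intro N
    refine Finset.measurable_sum _ fun n _ => ?_
    refine Measurable.ite ?_ measurable_const measurable_const
    exact (measurable_pi_apply n) (MeasurableSet.singleton 0)
  refine measurable_of_tendsto_metrizable h1 ?_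
  rw [tendsto_pi_nhds]
  intro b
  exact (code_summable b).hasSum.tendsto_sum_nat

theorem code_embedding : MeasurableEmbedding code :=
  measurable_code.measurableEmbedding code_injective

/-- the digits of a real number -/
theorem exists_digits : ∃ D : ℝ → (ℕ → ZMod 2), Measurable D ∧ ∀ b, D (code b) = b := by
  obtain ⟨D, hD, h⟩ := code_embedding.exists_measurable_extend (g := fun b : ℕ → ZMod 2 => b)
    measurable_id (fun _ => inferInstance)
  exact ⟨D, hD, fun b => congrFun h b⟩

/-- the first digits -/
def trunc (N : ℕ) (b : ℕ → ZMod 2) : ℕ → ZMod 2 := fun n => if n ≤ N then b n else 0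

theorem measurable_trunc (N : ℕ) : Measurable (trunc N) := by
  refine measurable_pi_lambda _ fun n => ?_
  unfold trunc
  by_cases h : n ≤ N
  · simp only [h, if_true]; exact measurable_pi_apply n
  · simp only [h, if_false]; exact measurable_const

theorem code_trunc (N : ℕ) (b : ℕ → ZMod 2) :
    |code (trunc N b) - code b| ≤ 3 / 2 * (1 / 3) ^ N := by
  have hs1 := code_summable b
  have hs2 := code_summable (trunc N b)
  have hgeo : Summable (fun n : ℕ => ((1 : ℝ) / 3) ^ n) :=
    summable_geometric_of_lt_one (by norm_num) (by norm_num)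
  have h1 : |code (trunc N b) - code b| ≤ ∑' n : ℕ, if n < N then 0 else ((1 : ℝ) / 3) ^ n := by
    unfold code
    rw [← hs2.tsum_sub hs1]
    have hb : Summable (fun n : ℕ => if n < N then (0 : ℝ) else ((1 : ℝ) / 3) ^ n) := by
      refine Summable.of_nonneg_of_le (fun n => ?_) (fun n => ?_) hgeo
      · split_ifs <;> positivity
      · split_ifs
        · positivity
        · exact le_refl _
    refine (norm_tsum_le_tsum_norm (f := fun n => (if trunc N b n = 0 then (0 : ℝ) else
      ((1 : ℝ) / 3) ^ n) - (if b n = 0 then (0 : ℝ) else ((1 : ℝ) / 3) ^ n)) ?_).trans ?_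
    · exact (hs2.sub hs1).norm
    · refine (hs2.sub hs1).norm.tsum_le_tsum (fun n => ?_) hb
      unfold trunc
      by_cases h : n ≤ N
      · simp only [h, if_true, sub_self, norm_zero]
        split_ifs <;> positivity
      · have hlt : ¬ n < N := by omega
        simp only [h, if_false, hlt, if_true, zero_sub, norm_neg]
        split_ifs
        · simp
        · rw [Real.norm_eq_abs, abs_of_nonneg (by positivity)]
  refine h1.trans ?_
  have hb : Summable (fun n : ℕ => if n < N then (0 : ℝ) else ((1 : ℝ) / 3) ^ n) := by
    refine Summable.of_nonneg_of_le (fun n => ?_) (fun n => ?_) hgeo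
    · split_ifs <;> positivity
    · split_ifs
      · positivity
      · exact le_refl _
  rw [← hb.sum_add_tsum_nat_add N]
  have h2 : ∑ i ∈ Finset.range N, (if i < N then (0 : ℝ) else ((1 : ℝ) / 3) ^ i) = 0 :=
    Finset.sum_eq_zero fun i hi => by rw [if_pos (Finset.mem_range.1 hi)]
  rw [h2, zero_add]
  have h3 : ∀ i : ℕ, (if i + N < N then (0 : ℝ) else ((1 : ℝ) / 3) ^ (i + N)) =
      ((1 : ℝ) / 3) ^ i * (1 / 3) ^ N := by
    intro i
    rw [if_neg (by omega), pow_add]
  rw [tsum_congr h3, tsum_mul_right, tsum_geometric_of_lt_one (by norm_num) (by norm_num)]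
  norm_num

end Pool.Agent.T6.H59.FI
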