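import Pool.Agent.T6.H59.FI.Stm

/-!
# Module FG: the free group
-/

set_option autoImplicit false

namespace Pool.Agent.T6.H59.FI

open MeasureTheory Measure

namespace FG

variable {k : ℕ}

/-- the inverse letter -/
def il (l : Fin k × Bool) : Fin k × Bool := (l.1, !l.2)

theorem il_ne (l : Fin k × Bool) : il l ≠ l := by
  intro h
  have := congrArg Prod.snd h
  simp [il] at this

theorem il_il (l : Fin k × Bool) : il (il l) = l := by
  simp [il]

theorem mul_nil (l : Fin k × Bool) {w : FreeGroup (Fin k)} (h : w.toWord = []) :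
    (FreeGroup.mk [l] * w).toWord = [l] := by
  have h1 : FreeGroup.mk [l] * w = FreeGroup.mk (l :: w.toWord) := by
    conv_lhs => rw [← FreeGroup.mk_toWord (x := w)]
    rw [FreeGroup.mul_mk]
    rfl
  rw [h1, FreeGroup.toWord_mk, FreeGroup.reduce.cons, FreeGroup.reduce_toWord, h]

theorem mul_cons (l : Fin k × Bool) {w : FreeGroup (Fin k)} {m : Fin k × Bool}
    {t : List (Fin k × Bool)} (h : w.toWord = m :: t) :
    (FreeGroup.mk [l] * w).toWord = if l = il m then t else l :: m :: t := by
  have h1 : FreeGroup.mk [l] * w = FreeGroup.mk (l :: w.toWord) := by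
    conv_lhs => rw [← FreeGroup.mk_toWord (x := w)]
    rw [FreeGroup.mul_mk]
    rfl
  rw [h1, FreeGroup.toWord_mk, FreeGroup.reduce.cons, FreeGroup.reduce_toWord, h]
  simp only [il, Prod.ext_iff]

/-- the letters which lengthen the word -/
def ch (w : FreeGroup (Fin k)) : Finset (Fin k × Bool) :=
  Finset.univ.filter fun l => w.toWord.head? ≠ some (il l)

theorem mem_ch {w : FreeGroup (Fin k)} {l : Fin k × Bool} (h : l ∈ ch w) :
    (FreeGroup.mk [l] * w).toWord = l :: w.toWord := by
  rw [ch, Finset.mem_filter] at h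
  rcases hw : w.toWord with _ | ⟨m, t⟩
  · exact mul_nil l hw
  · rw [mul_cons l hw, if_neg]
    intro h1
    apply h.2
    rw [hw, h1, il_il]
    rfl

theorem card_ch (w : FreeGroup (Fin k)) : Fintype.card (Fin k × Bool) ≤ (ch w).card + 1 := by
  have h1 := Finset.card_filter_add_card_filter_not (s := (Finset.univ : Finset (Fin k × Bool)))
    (fun l => w.toWord.head? ≠ some (il l))
  have h2 : (Finset.univ.filter fun l : Fin k × Bool => ¬ w.toWord.head? ≠ some (il l)).card ≤ 1 := by
    rw [Finset.card_le_one]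
    intro a ha b hb
    simp only [Finset.mem_filter, Finset.mem_univ, true_and, ne_eq, not_not] at ha hb
    rw [ha] at hb
    have := Option.some_injective _ hb
    rw [← il_il a, this, il_il]
  rw [Finset.card_univ] at h1
  unfold ch
  omega

/-- the tree of the free group -/
def tree (k : ℕ) : Tree (FreeGroup (Fin k)) (Fin k × Bool) where
  s l := FreeGroup.mk [l]
  ch := ch
  card_ch := card_ch
  inj := by
    intro w w' i i' hi hi' h
    have h1 := congrArg FreeGroup.toWord h
    rw [mem_ch hi, mem_ch hi'] at h1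
    rw [List.cons_eq_cons] at h1
    exact ⟨FreeGroup.toWord_injective h1.2, h1.1⟩
  inv := by
    intro l
    refine ⟨il l, ?_⟩
    rw [FreeGroup.inv_mk]
    rfl

/-- the preimage, on words -/
def Y (x : FreeGroup (Fin k) → ZMod 2) (l0 : Fin k × Bool) : List (Fin k × Bool) → ZMod 2
  | [] => 0
  | [l] => if l = l0 then x 1 else 0
  | l :: m :: t => if l = m then x (FreeGroup.mk (m :: t)) + Y x l0 t else 0

theorem surj (hk : 2 ≤ k) (x : FreeGroup (Fin k) → ZMod 2) : ∃ y, nb (tree k) y = x := by
  set l0 : Fin k × Bool := (⟨0, by omega⟩, true) with hl0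
  refine ⟨fun v => Y x l0 v.toWord, ?_⟩
  funext v
  show ∑ l, Y x l0 (FreeGroup.mk [l] * v).toWord = x v
  rcases hv : v.toWord with _ | ⟨m, t⟩
  · have h1 : ∀ l, Y x l0 (FreeGroup.mk [l] * v).toWord = if l = l0 then x 1 else 0 := by
      intro l
      rw [mul_nil l hv]
      rfl
    simp_rw [h1]
    rw [Finset.sum_ite_eq' Finset.univ l0, if_pos (Finset.mem_univ _)]
    congr 1
    rw [← FreeGroup.mk_toWord (x := v), hv]
    rfl
  · have hxv : FreeGroup.mk (m :: t) = v := by rw [← hv, FreeGroup.mk_toWord]
    have h1 : ∀ l, Y x l0 (FreeGroup.mk [l] * v).toWord =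
        (if l = il m then Y x l0 t else 0) + if l = m then x v + Y x l0 t else 0 := by
      intro l
      rw [mul_cons l hv]
      by_cases h : l = il m
      · rw [if_pos h, if_pos h, if_neg, add_zero]
        rw [h]
        exact il_ne m
      · rw [if_neg h, if_neg h, zero_add]
        show (if l = m then x (FreeGroup.mk (m :: t)) + Y x l0 t else 0) = _
        rw [hxv]
    simp_rw [h1]
    rw [Finset.sum_add_distrib, Finset.sum_ite_eq' Finset.univ (il m),
      Finset.sum_ite_eq' Finset.univ m, if_pos (Finset.mem_univ _), if_pos (Finset.mem_univ _)]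
    have h2 : Y x l0 t + Y x l0 t = 0 := CharTwo.add_self_eq_zero _
    calc Y x l0 t + (x v + Y x l0 t) = x v + (Y x l0 t + Y x l0 t) := by ring
      _ = x v := by rw [h2, add_zero]

end FG

/-- FG: the free group -/
theorem stmFG : StmFG := fun k hk => ⟨FG.tree k, fun _ => rfl, FG.surj hk⟩

end Pool.Agent.T6.H59.FI
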