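import Pool.Agent.T6.H59.FI.Stm

/-!
# The Cayley graph of the free group is the regular tree of degree `2 k`
-/

set_option autoImplicit false

namespace Pool.Agent.T6.H59.FI

namespace Gr

variable {α : Type} [DecidableEq α]

lemma word_cases (m : α × Bool) (x : FreeGroup α) :
    (FreeGroup.mk [m] * x).toWord = m :: x.toWord ∨
      x.toWord = (m.1, !m.2) :: (FreeGroup.mk [m] * x).toWord := by
  have h1 : (FreeGroup.mk [m] * x).toWord = FreeGroup.reduce (m :: x.toWord) := by
    conv_lhs => rw [← FreeGroup.mk_toWord (x := x)]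
    rw [FreeGroup.mul_mk, FreeGroup.toWord_mk]
    rfl
  rw [h1, FreeGroup.reduce.cons, FreeGroup.reduce_toWord]
  rcases hx : x.toWord with _ | ⟨hd, tl⟩
  · left; rfl
  · simp only
    split_ifs with h
    · right
      have : hd = (m.1, !m.2) := by
        ext
        · exact h.1.symm
        · simp [h.2]
      rw [this]
    · left; rfl

lemma mk_ne_one (l : α × Bool) : FreeGroup.mk [l] ≠ 1 := by
  intro h
  have := congrArg FreeGroup.toWord h
  simp [FreeGroup.reduce] at this

lemma mk_inv (l : α × Bool) : (FreeGroup.mk [l])⁻¹ = FreeGroup.mk [(l.1, !l.2)] := by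
  simp [FreeGroup.inv_mk, FreeGroup.invRev]

lemma mk_injective : Function.Injective (fun l : α × Bool => FreeGroup.mk [l]) := by
  intro l l' h
  have := congrArg FreeGroup.toWord h
  simpa [FreeGroup.reduce] using this

end Gr

open Gr

section

variable {k : ℕ} (T : Tree (FreeGroup (Fin k)) (Fin k × Bool))
  (hs : ∀ l, T.s l = FreeGroup.mk [l])

include hs

lemma Gr.adj_iff (v w : FreeGroup (Fin k)) :
    (cay T).Adj v w ↔ ∃ l, w = FreeGroup.mk [l] * v := by
  unfold cay
  rw [SimpleGraph.fromRel_adj]
  simp only [hs]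
  constructor
  · rintro ⟨-, ⟨l, h⟩ | ⟨l, h⟩⟩
    · exact ⟨l, h⟩
    · refine ⟨(l.1, !l.2), ?_⟩
      rw [← mk_inv, h, inv_mul_cancel_left]
  · rintro ⟨l, h⟩
    refine ⟨?_, Or.inl ⟨l, h⟩⟩
    rintro rfl
    have : FreeGroup.mk [l] = 1 := by
      have h2 : FreeGroup.mk [l] * v = 1 * v := by rw [one_mul]; exact h.symm
      exact mul_right_cancel h2
    exact mk_ne_one l this

lemma Gr.reach (v : FreeGroup (Fin k)) : (cay T).Reachable 1 v := by
  rw [← FreeGroup.mk_toWord (x := v)]
  induction v.toWord with
  | nil => exact SimpleGraph.Reachable.refl _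
  | cons l w ih =>
    refine ih.trans (SimpleGraph.Adj.reachable ?_)
    rw [Gr.adj_iff T hs]
    exact ⟨l, by rw [FreeGroup.mul_mk]; rfl⟩

/-- removing the edge from a word to its first letter's parent disconnects -/
lemma Gr.bridge (a b : FreeGroup (Fin k)) (l : Fin k × Bool) (hab : a.toWord = l :: b.toWord) :
    ¬ ((cay T).deleteEdges {s(a, b)}).Reachable a b := by
  rintro ⟨p⟩
  have key : ∀ (x y : FreeGroup (Fin k)) (q : ((cay T).deleteEdges {s(a, b)}).Walk x y),
      a.toWord <:+ x.toWord → a.toWord <:+ y.toWord := by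
    intro x y q
    induction q with
    | nil => exact id
    | cons h q ih =>
      intro hx
      apply ih
      rw [SimpleGraph.deleteEdges_adj, Gr.adj_iff T hs] at h
      obtain ⟨⟨m, hm⟩, hne⟩ := h
      rename_i x y z
      rcases word_cases m x with h1 | h1
      · rw [← hm] at h1
        rw [h1]
        exact hx.trans (List.suffix_cons _ _)
      · rw [← hm] at h1
        rw [h1, List.suffix_cons_iff] at hx
        rcases hx with hx | hx
        · exfalso
          apply hne
          have hxa : x = a := by
            apply FreeGroup.toWord_injective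
            rw [h1, hx]
          have hyb : y = b := by
            apply FreeGroup.toWord_injective
            rw [hab] at hx
            exact (List.cons.inj hx).2.symm
          rw [hxa, hyb]
          exact Set.mem_singleton _
        · exact hx
  have h := key a b p (List.suffix_refl _)
  have h2 := h.length_le
  rw [hab] at h2
  simp at h2

end

theorem stmGRAPH : StmGRAPH := by
  intro k T hk hs
  refine ⟨⟨?_, ?_⟩, fun v => ?_⟩
  · have : Nonempty (FreeGroup (Fin k)) := ⟨1⟩
    refine ⟨fun v w => ((Gr.reach T hs v).symm).trans (Gr.reach T hs w)⟩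
  · rw [SimpleGraph.isAcyclic_iff_forall_adj_isBridge]
    intro v w hvw
    rw [SimpleGraph.isBridge_iff]
    obtain ⟨l, hl⟩ := (Gr.adj_iff T hs v w).1 hvw
    rcases word_cases l v with h1 | h1
    · rw [← hl] at h1
      intro hr
      have h2 := Gr.bridge T hs w v l h1
      rw [Sym2.eq_swap] at hr
      exact h2 hr.symm
    · rw [← hl] at h1
      exact Gr.bridge T hs v w _ h1
  · have h1 : (cay T).neighborSet v = Set.range (fun l : Fin k × Bool => FreeGroup.mk [l] * v) := by
      ext w
      rw [SimpleGraph.mem_neighborSet, Gr.adj_iff T hs]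
      constructor
      · rintro ⟨l, hl⟩; exact ⟨l, hl.symm⟩
      · rintro ⟨l, hl⟩; exact ⟨l, hl.symm⟩
    rw [h1, ← Set.image_univ, Set.ncard_image_of_injective]
    · simp [mul_comm]
    · intro l l' h
      exact mk_injective (mul_right_cancel h)

end Pool.Agent.T6.H59.FI
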