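import Pool.Agent.T6.H59.FI.Defs

/-!
# Statements of the independent modules
-/

set_option autoImplicit false

namespace Pool.Agent.T6.H59.FI

open MeasureTheory Measure

/-- the graph whose edges are the pairs `v, s i * v` -/
def cay {Γ ι : Type} [Group Γ] [Fintype ι] (T : Tree Γ ι) : SimpleGraph Γ :=
  SimpleGraph.fromRel (fun v w => ∃ i, w = T.s i * v)

/-- SSE: expansion of small sets for factors of i.i.d. -/
def StmSSE : Prop := ∀ (Γ ι E : Type) [Group Γ] [Countable Γ] [Fintype ι] [MeasurableSpace E]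
  [MeasurableSpace.CountablyGenerated E] (lam : Measure E) [IsProbabilityMeasure lam]
  (T : Tree Γ ι) (A : Set (Γ → E)), MeasurableSet A →
  ((Fintype.card ι : ℝ) - 1) * Real.binEntropy ((bern Γ lam).real A) ≤
    Real.binEntropy ((bern Γ lam).real (⋃ i, tr (T.s i) ⁻¹' A)) +
      (bern Γ lam).real (⋃ i, tr (T.s i) ⁻¹' A) * (Fintype.card ι * Real.log 2)

/-- ANAL: the inequality of SSE is a linear expansion for small `p`. -/
def StmANAL : Prop := ∀ d : ℕ, 4 ≤ d → ∃ p₀ : ℝ, 0 < p₀ ∧ p₀ ≤ 1 / 2 ∧ ∀ p N : ℝ, 0 ≤ p →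
  p ≤ p₀ → 0 ≤ N → N ≤ 1 →
  ((d : ℝ) - 1) * Real.binEntropy p ≤ Real.binEntropy N + N * (d * Real.log 2) →
  ((d : ℝ) - 5 / 4) * p ≤ N

/-- NOISE: the noise sensitivity -/
def StmNOISE : Prop := ∀ (Γ E : Type) [Countable Γ] [MeasurableSpace E]
  [MeasurableSpace.CountablyGenerated E] (lam : Measure E) [IsProbabilityMeasure lam]
  (f : (Γ → E) → ZMod 2), Measurable f →
  sens lam f 0 = 0 ∧ ContinuousOn (sens lam f) (Set.Icc 0 1) ∧
  ((bern Γ lam).real {x | f x = 0} = 1 / 2 →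
    ∀ m : ℕ, 0 < m → 1 / (2 * (m : ℝ)) ≤ sens lam f (1 / m))

/-- the configuration at any time is i.i.d. -/
def StmAT : Prop := ∀ (Γ E : Type) [Countable Γ] [MeasurableSpace E] (lam : Measure E)
  [IsProbabilityMeasure lam] (t : ℝ),
  MeasurePreserving (at' (Γ := Γ) (E := E) t) (bern Γ (lam3 lam)) (bern Γ lam)

/-- FG: the free group -/
def StmFG : Prop := ∀ k : ℕ, 2 ≤ k → ∃ T : Tree (FreeGroup (Fin k)) (Fin k × Bool),
  (∀ l, T.s l = FreeGroup.mk [l]) ∧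
  (∀ x : FreeGroup (Fin k) → ZMod 2, ∃ y, nb T y = x)

/-- HAAR: the inverse limit -/
def StmHAAR : Prop := ∀ (Γ ι : Type) [Group Γ] [Countable Γ] [Fintype ι] (T : Tree Γ ι),
  (∀ x : Γ → ZMod 2, ∃ y, nb T y = x) →
  ∃ P : Measure (ℕ → Γ → ZMod 2), IsProbabilityMeasure P ∧
    (∀ᵐ y ∂P, ∀ n, y n = nb T (y (n + 1))) ∧
    (∀ n, P.map (fun y => y n) = bern Γ coin) ∧
    ∀ σ : Equiv.Perm Γ, (∀ y : Γ → ZMod 2, nb T (y ∘ σ) = nb T y ∘ σ) →
      P.map (fun y n => y n ∘ σ) = P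

/-- GRAPH: the Cayley graph of the free group is the regular tree of degree `2 k` -/
def StmGRAPH : Prop := ∀ (k : ℕ) (T : Tree (FreeGroup (Fin k)) (Fin k × Bool)), 2 ≤ k →
  (∀ l, T.s l = FreeGroup.mk [l]) →
  (cay T).IsTree ∧ ∀ v, ((cay T).neighborSet v).ncard = 2 * k

end Pool.Agent.T6.H59.FI
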