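import Mathlib
import Pool.Agent.T6.H59.FI.Stm

/-!
# HAAR: the inverse limit
-/

set_option autoImplicit false

namespace Pool.Agent.T6.H59.FI

open MeasureTheory Measure

namespace Haar

instance : BorelSpace (ZMod 2) := ⟨borel_eq_top_of_discrete.symm⟩

instance : SecondCountableTopology (ZMod 2) := inferInstance

variable {Γ ι : Type} [Group Γ] [Fintype ι]

theorem nb_add (T : Tree Γ ι) (x y : Γ → ZMod 2) : nb T (x + y) = nb T x + nb T y := by
  funext v
  simp [nb, Finset.sum_add_distrib]

theorem nb_zero (T : Tree Γ ι) : nb T (0 : Γ → ZMod 2) = 0 := by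
  funext v
  simp [nb]

theorem nb_neg (T : Tree Γ ι) (x : Γ → ZMod 2) : nb T (-x) = -nb T x := by
  funext v
  simp [nb]

theorem nb_cont (T : Tree Γ ι) : Continuous (fun x : Γ → ZMod 2 => nb T x) := by
  apply continuous_pi
  intro v
  unfold nb
  exact continuous_finset_sum _ fun i _ => continuous_apply _

/-- the inverse limit -/
def Y (T : Tree Γ ι) : AddSubgroup (ℕ → Γ → ZMod 2) where
  carrier := {y | ∀ n, y n = nb T (y (n + 1))}
  add_mem' := by
    intro a b ha hb n
    show a n + b n = nb T (a (n + 1) + b (n + 1))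
    rw [nb_add, ← ha n, ← hb n]
  zero_mem' := by
    intro n
    show (0 : Γ → ZMod 2) = nb T 0
    rw [nb_zero]
  neg_mem' := by
    intro a ha n
    show -a n = nb T (-a (n + 1))
    rw [nb_neg, ← ha n]

theorem mem_Y {T : Tree Γ ι} {y : ℕ → Γ → ZMod 2} : y ∈ Y T ↔ ∀ n, y n = nb T (y (n + 1)) :=
  Iff.rfl

theorem closed_Y (T : Tree Γ ι) : IsClosed {y : ℕ → Γ → ZMod 2 | ∀ n, y n = nb T (y (n + 1))} := by
  rw [Set.setOf_forall]
  exact isClosed_iInter fun n =>
    isClosed_eq (continuous_apply n) ((nb_cont T).comp (continuous_apply (n + 1)))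

instance compact_Y (T : Tree Γ ι) : CompactSpace (Y T) :=
  isCompact_iff_compactSpace.1 (closed_Y T).isCompact

/-- the projection -/
def pr (T : Tree Γ ι) (n : ℕ) : Y T →+ (Γ → ZMod 2) where
  toFun y := y.1 n
  map_zero' := rfl
  map_add' _ _ := rfl

theorem pr_cont (T : Tree Γ ι) (n : ℕ) : Continuous (pr T n) :=
  (continuous_apply n).comp continuous_subtype_val

theorem pr_surj (T : Tree Γ ι) (h : ∀ x : Γ → ZMod 2, ∃ y, nb T y = x) (n : ℕ) :
    Function.Surjective (pr T n) := by
  choose pre hpre using h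
  intro z
  refine ⟨⟨fun m => if m ≤ n then (nb T)^[n - m] z else pre^[m - n] z, ?_⟩, ?_⟩
  · rw [mem_Y]
    intro m
    by_cases h1 : m + 1 ≤ n
    · rw [if_pos (by omega), if_pos h1]
      have h2 : n - m = (n - (m + 1)) + 1 := by omega
      rw [h2, Function.iterate_succ_apply']
    · rw [if_neg h1]
      have h2 : m + 1 - n = (m - n) + 1 := by omega
      rw [h2, Function.iterate_succ_apply', hpre]
      by_cases h3 : m ≤ n
      · have h4 : m = n := by omega
        subst h4
        simp
      · rw [if_neg h3]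
  · show (if n ≤ n then (nb T)^[n - n] z else pre^[n - n] z) = z
    simp

/-- the action of a permutation -/
def ac (T : Tree Γ ι) (σ : Equiv.Perm Γ) (h : ∀ y : Γ → ZMod 2, nb T (y ∘ σ) = nb T y ∘ σ) :
    Y T →+ Y T where
  toFun y := ⟨fun n => y.1 n ∘ σ, by
    rw [mem_Y]
    intro n
    rw [h, ← mem_Y.1 y.2 n]⟩
  map_zero' := rfl
  map_add' _ _ := rfl

theorem ac_cont (T : Tree Γ ι) (σ : Equiv.Perm Γ)
    (h : ∀ y : Γ → ZMod 2, nb T (y ∘ σ) = nb T y ∘ σ) : Continuous (ac T σ h) := by
  apply Continuous.subtype_mk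
  apply continuous_pi
  intro n
  apply continuous_pi
  intro v
  exact (continuous_apply (σ v)).comp ((continuous_apply n).comp continuous_subtype_val)

theorem ac_surj (T : Tree Γ ι) (σ : Equiv.Perm Γ)
    (h : ∀ y : Γ → ZMod 2, nb T (y ∘ σ) = nb T y ∘ σ) : Function.Surjective (ac T σ h) := by
  intro y
  have h' : ∀ y : Γ → ZMod 2, nb T (y ∘ σ.symm) = nb T y ∘ σ.symm := by
    intro y
    have h1 := h (y ∘ σ.symm)
    have h2 : (y ∘ σ.symm) ∘ σ = y := by
      funext v
      simp
    rw [h2] at h1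
    rw [h1]
    funext v
    simp
  refine ⟨ac T σ.symm h' y, ?_⟩
  apply Subtype.ext
  funext n v
  show y.1 n (σ.symm (σ v)) = y.1 n v
  rw [Equiv.symm_apply_apply]

/-- the fair coin is invariant -/
theorem coin_inv (a : ZMod 2) : coin.map (fun x => a + x) = coin := by
  unfold coin
  rw [Measure.map_smul, map_add_left_eq_self]

variable [Countable Γ]

instance bern_inv : (bern Γ coin).IsAddLeftInvariant := ⟨by
  intro g
  have h := infinitePi_map_pi (μ := fun _ : Γ => coin) (f := fun v x => g v + x)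
    (fun v => measurable_const_add (g v))
  simp only [coin_inv] at h
  exact h⟩

instance bern_haar : (bern Γ coin).IsAddHaarMeasure :=
  isAddHaarMeasure_of_isCompact_nonempty_interior (bern Γ coin) Set.univ isCompact_univ
    (by simp) (by simp) (by simp)

/-- the Haar probability measure of the inverse limit -/
noncomputable def mu (T : Tree Γ ι) : Measure (Y T) := addHaarMeasure ⊤

instance (T : Tree Γ ι) : (mu T).IsAddHaarMeasure := by
  unfold mu
  infer_instance

instance (T : Tree Γ ι) : IsProbabilityMeasure (mu T) := ⟨by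
  have h := addHaarMeasure_self (K₀ := (⊤ : TopologicalSpace.PositiveCompacts (Y T)))
  unfold mu
  simpa using h⟩

end Haar

open Haar in
theorem stmHAAR : StmHAAR := by
  intro Γ ι _ _ _ T hT
  have hval : Measurable (Subtype.val : Y T → (ℕ → Γ → ZMod 2)) := measurable_subtype_coe
  refine ⟨(mu T).map Subtype.val, isProbabilityMeasure_map hval.aemeasurable, ?_, ?_, ?_⟩
  · rw [ae_map_iff hval.aemeasurable (closed_Y T).measurableSet]
    exact Filter.Eventually.of_forall fun y => mem_Y.1 y.2
  · intro n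
    have h1 : Measurable (fun y : ℕ → Γ → ZMod 2 => y n) := measurable_pi_apply n
    rw [Measure.map_map h1 hval]
    have h2 : (fun y : ℕ → Γ → ZMod 2 => y n) ∘ (Subtype.val : Y T → _) = pr T n := rfl
    rw [h2]
    haveI h3 : ((mu T).map (pr T n)).IsAddHaarMeasure :=
      isAddHaarMeasure_map_of_isFiniteMeasure (mu T) (pr T n) (pr_cont T n) (pr_surj T hT n)
    haveI h4 : IsProbabilityMeasure ((mu T).map (pr T n)) :=
      isProbabilityMeasure_map (pr_cont T n).measurable.aemeasurable
    exact isAddHaarMeasure_eq_of_isProbabilityMeasure _ _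
  · intro σ hσ
    have h1 : Measurable (fun (y : ℕ → Γ → ZMod 2) (n : ℕ) => y n ∘ σ) := by
      apply measurable_pi_lambda
      intro n
      apply measurable_pi_lambda
      intro v
      exact (measurable_pi_apply (σ v)).comp (measurable_pi_apply n)
    haveI h3 : ((mu T).map (ac T σ hσ)).IsAddHaarMeasure :=
      isAddHaarMeasure_map_of_isFiniteMeasure (mu T) (ac T σ hσ) (ac_cont T σ hσ) (ac_surj T σ hσ)
    haveI h4 : IsProbabilityMeasure ((mu T).map (ac T σ hσ)) :=
      isProbabilityMeasure_map (ac_cont T σ hσ).measurable.aemeasurable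
    have h5 : (mu T).map (ac T σ hσ) = mu T := isAddHaarMeasure_eq_of_isProbabilityMeasure _ _
    rw [Measure.map_map h1 hval]
    have h2 : (fun (y : ℕ → Γ → ZMod 2) (n : ℕ) => y n ∘ σ) ∘ (Subtype.val : Y T → _) =
      Subtype.val ∘ (ac T σ hσ) := rfl
    rw [h2, ← Measure.map_map hval (ac_cont T σ hσ).measurable, h5]

end Pool.Agent.T6.H59.FI
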