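import Pool.Agent.T6.H59.FI.Stm

/-!
# NOISE: the noise sensitivity of a factor of i.i.d.
-/

set_option autoImplicit false

namespace Pool.Agent.T6.H59.FI

open MeasureTheory Measure

namespace NOISE

variable {Γ E : Type} [MeasurableSpace E]

open Classical in
/-- the labels of one site at the times `a` and `b` -/
noncomputable def site (a b : ℝ) (e : E3 E) : E × E :=
  (if (e.2.2 : ℝ) < a then e.2.1 else e.1, if (e.2.2 : ℝ) < b then e.2.1 else e.1)

lemma measurableSet_lt_site (a : ℝ) : MeasurableSet {e : E3 E | (e.2.2 : ℝ) < a} := by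
  have h : Measurable (fun e : E3 E => (e.2.2 : ℝ)) := by fun_prop
  exact h measurableSet_Iio

lemma measurable_site (a b : ℝ) : Measurable (site (E := E) a b) := by
  unfold site
  refine Measurable.prodMk ?_ ?_
  · exact Measurable.ite (measurableSet_lt_site a) (by fun_prop) (by fun_prop)
  · exact Measurable.ite (measurableSet_lt_site b) (by fun_prop) (by fun_prop)

lemma site_law (lam : Measure E) [IsProbabilityMeasure lam] (a b : unitInterval) (hab : a ≤ b)
    (C : Set (E × E)) (hC : MeasurableSet C) :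
    lam3 lam (site (a : ℝ) (b : ℝ) ⁻¹' C) =
      ENNReal.ofReal ((b : ℝ) - a) * (lam.prod lam) C +
        ENNReal.ofReal (1 - ((b : ℝ) - a)) * lam ((fun e => (e, e)) ⁻¹' C) := by
  classical
  set D : Set E := (fun e => (e, e)) ⁻¹' C with hD
  have mD : MeasurableSet D := (by fun_prop : Measurable (fun e : E => (e, e))) hC
  set S1 : Set (E3 E) := Set.univ ×ˢ (D ×ˢ Set.Iio a) with hS1
  set S3 : Set (E3 E) := D ×ˢ (Set.univ ×ˢ Set.Ici b) with hS3
  set S2 : Set (E3 E) := MeasurableEquiv.prodAssoc '' (C ×ˢ Set.Ico a b) with hS2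
  have mS1 : MeasurableSet S1 := MeasurableSet.univ.prod (mD.prod measurableSet_Iio)
  have mS3 : MeasurableSet S3 := mD.prod (MeasurableSet.univ.prod measurableSet_Ici)
  have mS2 : MeasurableSet S2 := by
    rw [hS2, MeasurableEquiv.image_eq_preimage_symm]
    exact MeasurableEquiv.prodAssoc.symm.measurable (hC.prod measurableSet_Ico)
  have hmem2 : ∀ e : E3 E, e ∈ S2 ↔ ((e.1, e.2.1) ∈ C ∧ a ≤ e.2.2 ∧ e.2.2 < b) := by
    intro e
    rw [hS2, MeasurableEquiv.image_eq_preimage_symm]
    simp [MeasurableEquiv.prodAssoc]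
  have hdec : site (a : ℝ) (b : ℝ) ⁻¹' C = S1 ∪ (S2 ∪ S3) := by
    ext e
    simp only [Set.mem_preimage, Set.mem_union, hmem2]
    simp only [hS1, hS3, Set.mem_prod, Set.mem_univ, true_and, Set.mem_Iio, Set.mem_Ici, hD,
      Set.mem_preimage]
    unfold site
    rcases lt_or_ge e.2.2 a with h1 | h1
    · have h2 : e.2.2 < b := lt_of_lt_of_le h1 hab
      rw [if_pos (by exact_mod_cast h1), if_pos (by exact_mod_cast h2)]
      simp [h1, not_le.mpr h1, not_le.mpr h2]
    · rcases lt_or_ge e.2.2 b with h2 | h2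
      · rw [if_neg (by exact_mod_cast not_lt.mpr h1), if_pos (by exact_mod_cast h2)]
        simp [h1, h2, not_lt.mpr h1, not_le.mpr h2]
      · rw [if_neg (by exact_mod_cast not_lt.mpr h1), if_neg (by exact_mod_cast not_lt.mpr h2)]
        simp [h1, h2, not_lt.mpr h1, not_lt.mpr h2]
  have d23 : Disjoint S2 S3 := by
    rw [Set.disjoint_left]
    intro e h2 h3
    rw [hmem2] at h2
    exact absurd h3.2.2 (not_le.mpr h2.2.2)
  have d1 : Disjoint S1 (S2 ∪ S3) := by
    rw [Set.disjoint_left]
    intro e h1 h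
    have h1' : e.2.2 < a := h1.2.2
    rcases h with h2 | h3
    · rw [hmem2] at h2
      exact absurd h2.2.1 (not_le.mpr h1')
    · exact absurd (h3.2.2 : b ≤ e.2.2) (not_le.mpr (lt_of_lt_of_le h1' hab))
  rw [hdec, measure_union d1 (mS2.union mS3), measure_union d23 mS3]
  have e1 : lam3 lam S1 = ENNReal.ofReal a * lam D := by
    rw [hS1, lam3, prod_prod, prod_prod, unitInterval.volume_Iio, measure_univ, one_mul, mul_comm]
  have e3 : lam3 lam S3 = ENNReal.ofReal (1 - b) * lam D := by
    rw [hS3, lam3, prod_prod, prod_prod, unitInterval.volume_Ici, measure_univ, one_mul, mul_comm]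
  have e2 : lam3 lam S2 = ENNReal.ofReal (b - a) * (lam.prod lam) C := by
    rw [lam3, ← Measure.prodAssoc_prod, hS2, MeasurableEquiv.map_apply,
      MeasurableEquiv.preimage_image, prod_prod, unitInterval.volume_Ico, mul_comm]
  rw [e1, e2, e3]
  have ha0 : (0 : ℝ) ≤ a := a.2.1
  have hb1 : (b : ℝ) ≤ 1 := b.2.2
  have : ENNReal.ofReal (1 - ((b : ℝ) - a)) = ENNReal.ofReal a + ENNReal.ofReal (1 - b) := by
    rw [← ENNReal.ofReal_add ha0 (by linarith)]
    congr 1; ring
  rw [this]
  ring

/-- The joint law at two times depends only on the difference. -/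
lemma site_map (lam : Measure E) [IsProbabilityMeasure lam] (a b : unitInterval) (hab : a ≤ b)
    (a' b' : unitInterval) (hab' : a' ≤ b') (h : (b : ℝ) - a = b' - a') :
    (lam3 lam).map (site (a : ℝ) b) = (lam3 lam).map (site (a' : ℝ) b') := by
  ext C hC
  rw [map_apply (measurable_site _ _) hC, map_apply (measurable_site _ _) hC,
    site_law lam a b hab C hC, site_law lam a' b' hab' C hC, h]

lemma site_zero_one (lam : Measure E) [IsProbabilityMeasure lam] :
    (lam3 lam).map (site (0 : ℝ) 1) = lam.prod lam := by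
  ext C hC
  have := site_law lam 0 1 zero_le_one C hC
  rw [map_apply (measurable_site _ _) hC]
  simp only [Set.Icc.coe_zero, Set.Icc.coe_one, sub_zero, ENNReal.ofReal_one, one_mul, sub_self,
    ENNReal.ofReal_zero, zero_mul, add_zero] at this
  exact this

/-- the pair of configurations at two times -/
noncomputable def pr (a b : ℝ) (x : Γ → E3 E) : Γ → E × E := fun v => site a b (x v)

omit [MeasurableSpace E] in
lemma pr_fst (a b : ℝ) (x : Γ → E3 E) : (fun v => (pr a b x v).1) = at' a x := rfl
omit [MeasurableSpace E] in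
lemma pr_snd (a b : ℝ) (x : Γ → E3 E) : (fun v => (pr a b x v).2) = at' b x := rfl

lemma pr_map (lam : Measure E) [IsProbabilityMeasure lam] (a b : ℝ) :
    haveI := isProbabilityMeasure_map (μ := lam3 lam) (measurable_site (E := E) a b).aemeasurable
    (bern Γ (lam3 lam)).map (pr a b) =
      infinitePi (fun _ : Γ => (lam3 lam).map (site a b)) := by
  unfold bern pr
  exact infinitePi_map_pi (fun _ : Γ => lam3 lam) (fun _ => measurable_site a b)

lemma measurable_pr (a b : ℝ) : Measurable (pr (Γ := Γ) (E := E) a b) := by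
  unfold pr
  refine measurable_pi_lambda _ fun v => ?_
  exact (measurable_site a b).comp (measurable_pi_apply v)

lemma measurable_at (a : ℝ) : Measurable (at' (Γ := Γ) (E := E) a) := by
  have h := measurable_pr (Γ := Γ) (E := E) a a
  have h2 : Measurable (fun z : Γ → E × E => fun v => (z v).1) := by fun_prop
  exact h2.comp h

/-- the event that `f` takes different values on the two configurations -/
def dif (f : (Γ → E) → ZMod 2) : Set (Γ → E × E) :=
  {z | f (fun v => (z v).1) ≠ f (fun v => (z v).2)}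

lemma measurableSet_dif (f : (Γ → E) → ZMod 2) (hf : Measurable f) : MeasurableSet (dif f) := by
  have h1 : Measurable (fun z : Γ → E × E => f (fun v => (z v).1)) := hf.comp (by fun_prop)
  have h2 : Measurable (fun z : Γ → E × E => f (fun v => (z v).2)) := hf.comp (by fun_prop)
  exact (measurableSet_eq_fun h1 h2).compl

lemma measurableSet_ne (f : (Γ → E) → ZMod 2) (hf : Measurable f) (a b : ℝ) :
    MeasurableSet {x : Γ → E3 E | f (at' a x) ≠ f (at' b x)} :=
  measurable_pr a b (measurableSet_dif f hf)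

lemma stat (lam : Measure E) [IsProbabilityMeasure lam] (f : (Γ → E) → ZMod 2) (hf : Measurable f)
    (a b : ℝ) (ha : 0 ≤ a) (hab : a ≤ b) (hb : b ≤ 1) :
    (bern Γ (lam3 lam)).real {x | f (at' a x) ≠ f (at' b x)} = sens lam f (b - a) := by
  have h1 : (bern Γ (lam3 lam)) {x | f (at' a x) ≠ f (at' b x)} =
      ((bern Γ (lam3 lam)).map (pr a b)) (dif f) := by
    rw [map_apply (measurable_pr a b) (measurableSet_dif f hf)]
    rfl
  have h2 : (bern Γ (lam3 lam)) {x | f (at' 0 x) ≠ f (at' (b - a) x)} =
      ((bern Γ (lam3 lam)).map (pr 0 (b - a))) (dif f) := by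
    rw [map_apply (measurable_pr _ _) (measurableSet_dif f hf)]
    rfl
  have h3 : (bern Γ (lam3 lam)).map (pr a b) = (bern Γ (lam3 lam)).map (pr 0 (b - a)) := by
    have hs := site_map lam ⟨a, ha, hab.trans hb⟩ ⟨b, ha.trans hab, hb⟩ hab 0
      ⟨b - a, by linarith, by linarith⟩ (by exact Subtype.mk_le_mk.mpr (by simpa using hab))
      (by simp)
    simp only [Set.Icc.coe_zero] at hs
    rw [pr_map, pr_map]
    congr 1
    funext v
    exact hs
  unfold sens
  rw [measureReal_def, measureReal_def, h1, h2, h3]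

/-- the two coordinates of an i.i.d. sequence of independent pairs are independent -/
lemma unzip_map (lam : Measure E) [IsProbabilityMeasure lam] :
    (infinitePi (fun _ : Γ => lam.prod lam)).map
      (fun z => ((fun v => (z v).1 : Γ → E), (fun v => (z v).2 : Γ → E))) =
      (bern Γ lam).prod (bern Γ lam) := by
  classical
  symm
  have hgen : MeasurableSpace.generateFrom
      (squareCylinders (fun _ : Γ => {s : Set E | MeasurableSet s})) = MeasurableSpace.pi :=
    generateFrom_squareCylinders
  have hpi : IsPiSystem (squareCylinders (fun _ : Γ => {s : Set E | MeasurableSet s})) :=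
    isPiSystem_squareCylinders (fun _ ↦ MeasurableSpace.isPiSystem_measurableSet) (by simp)
  have huniv : (Set.univ : Set (Γ → E)) ∈
      squareCylinders (fun _ : Γ => {s : Set E | MeasurableSet s}) := by
    refine ⟨∅, fun _ => Set.univ, ?_, ?_⟩
    · simp
    · simp
  have hsp : (bern Γ lam).FiniteSpanningSetsIn
      (squareCylinders (fun _ : Γ => {s : Set E | MeasurableSet s})) :=
    ⟨fun _ => Set.univ, fun _ => huniv, fun _ => measure_lt_top _ _, Set.iUnion_const _⟩
  refine prod_eq_generateFrom hgen hgen hpi hpi hsp hsp ?_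
  rintro _ ⟨s, t, ht, rfl⟩ _ ⟨s', t', ht', rfl⟩
  simp only [Set.mem_pi, Set.mem_univ, Set.mem_ofPred_eq, forall_const] at ht ht'
  have mu : Measurable (fun z : Γ → E × E => ((fun v => (z v).1 : Γ → E), (fun v => (z v).2 : Γ → E))) := by
    fun_prop
  have m1 : MeasurableSet ((s : Set Γ).pi t) := MeasurableSet.pi s.countable_toSet fun i _ => ht i
  have m2 : MeasurableSet ((s' : Set Γ).pi t') :=
    MeasurableSet.pi s'.countable_toSet fun i _ => ht' i
  rw [map_apply mu (m1.prod m2)]
  set T : Γ → Set E := fun v => if v ∈ s then t v else Set.univ with hT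
  set T' : Γ → Set E := fun v => if v ∈ s' then t' v else Set.univ with hT'
  have hTm : ∀ v, MeasurableSet (T v) := by
    intro v; simp only [hT]; split_ifs <;> simp [ht]
  have hTm' : ∀ v, MeasurableSet (T' v) := by
    intro v; simp only [hT']; split_ifs <;> simp [ht']
  have hpre : (fun z : Γ → E × E => ((fun v => (z v).1 : Γ → E), (fun v => (z v).2 : Γ → E))) ⁻¹'
      (((s : Set Γ).pi t) ×ˢ ((s' : Set Γ).pi t')) =
      ((s ∪ s' : Finset Γ) : Set Γ).pi (fun v => T v ×ˢ T' v) := by
    ext z
    simp only [Set.mem_preimage, Set.mem_prod, Set.mem_pi, Finset.mem_coe, Finset.mem_union, hT,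
      hT']
    constructor
    · rintro ⟨h1, h2⟩ v hv
      constructor
      · split_ifs with h
        · exact h1 v h
        · trivial
      · split_ifs with h
        · exact h2 v h
        · trivial
    · intro h
      refine ⟨fun v hv => ?_, fun v hv => ?_⟩
      · have := (h v (Or.inl hv)).1
        rwa [if_pos hv] at this
      · have := (h v (Or.inr hv)).2
        rwa [if_pos hv] at this
  rw [hpre, infinitePi_pi _ (fun v _ => (hTm v).prod (hTm' v))]
  simp only [prod_prod]
  rw [Finset.prod_mul_distrib]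
  unfold bern
  rw [infinitePi_pi _ (fun v _ => ht v), infinitePi_pi _ (fun v _ => ht' v)]
  congr 1
  · rw [← Finset.prod_subset (Finset.subset_union_left (s₁ := s) (s₂ := s'))]
    · refine Finset.prod_congr rfl fun v hv => ?_
      simp [hT, hv]
    · intro v _ hv
      simp [hT, hv]
  · rw [← Finset.prod_subset (Finset.subset_union_right (s₁ := s) (s₂ := s'))]
    · refine Finset.prod_congr rfl fun v hv => ?_
      simp [hT', hv]
    · intro v _ hv
      simp [hT', hv]

lemma zmod2_ne : ∀ a b : ZMod 2, a ≠ b ↔ (a = 0 ∧ b ≠ 0) ∨ (a ≠ 0 ∧ b = 0) := by decide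

lemma half (lam : Measure E) [IsProbabilityMeasure lam] (f : (Γ → E) → ZMod 2) (hf : Measurable f)
    (h : (bern Γ lam).real {x | f x = 0} = 1 / 2) : sens lam f 1 = 1 / 2 := by
  have mu : Measurable
      (fun z : Γ → E × E => ((fun v => (z v).1 : Γ → E), (fun v => (z v).2 : Γ → E))) := by
    fun_prop
  have mne : MeasurableSet {p : (Γ → E) × (Γ → E) | f p.1 ≠ f p.2} :=
    (measurableSet_eq_fun (hf.comp measurable_fst) (hf.comp measurable_snd)).compl
  have h1 : (bern Γ (lam3 lam)) {x | f (at' 0 x) ≠ f (at' 1 x)} =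
      ((bern Γ lam).prod (bern Γ lam)) {p | f p.1 ≠ f p.2} := by
    rw [← unzip_map, map_apply mu mne]
    have h2 : (infinitePi (fun _ : Γ => lam.prod lam)) =
        (bern Γ (lam3 lam)).map (pr 0 1) := by
      rw [pr_map]
      congr 1
      funext v
      exact (site_zero_one lam).symm
    rw [h2, map_apply (measurable_pr 0 1) (mu mne)]
    rfl
  set A : Set (Γ → E) := {x | f x = 0} with hA
  have mA : MeasurableSet A := hf (measurableSet_singleton 0)
  have hdec : {p : (Γ → E) × (Γ → E) | f p.1 ≠ f p.2} = (A ×ˢ Aᶜ) ∪ (Aᶜ ×ˢ A) := by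
    ext p
    simp only [Set.mem_ofPred_eq, Set.mem_union, Set.mem_prod, Set.mem_compl_iff, hA]
    exact zmod2_ne _ _
  have hdis : Disjoint (A ×ˢ Aᶜ) (Aᶜ ×ˢ A) := by
    rw [Set.disjoint_left]
    intro p h1 h2
    exact h2.1 h1.1
  have hAc : (bern Γ lam).real Aᶜ = 1 / 2 := by
    rw [probReal_compl_eq_one_sub mA, h]; norm_num
  unfold sens
  rw [measureReal_def, h1, hdec, ← measureReal_def, measureReal_union hdis (mA.compl.prod mA),
    measureReal_prod_prod, measureReal_prod_prod, h, hAc]
  norm_num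

lemma tri (lam : Measure E) [IsProbabilityMeasure lam] (f : (Γ → E) → ZMod 2) (hf : Measurable f)
    (a b : ℝ) (ha : 0 ≤ a) (hab : a ≤ b) (hb : b ≤ 1) :
    sens lam f b ≤ sens lam f a + sens lam f (b - a) ∧
      sens lam f a ≤ sens lam f b + sens lam f (b - a) := by
  rw [← stat lam f hf a b ha hab hb]
  unfold sens
  constructor
  · refine le_trans (measureReal_mono ?_) (measureReal_union_le _ _)
    intro x hx
    by_contra hcon
    simp only [Set.mem_union, Set.mem_ofPred_eq, not_or, not_not] at hcon hx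
    exact hx (hcon.1.trans hcon.2)
  · refine le_trans (measureReal_mono ?_) (measureReal_union_le _ _)
    intro x hx
    by_contra hcon
    simp only [Set.mem_union, Set.mem_ofPred_eq, not_or, not_not] at hcon hx
    exact hx (hcon.1.trans hcon.2.symm)

lemma sens_zero (lam : Measure E) [IsProbabilityMeasure lam] (f : (Γ → E) → ZMod 2) :
    sens lam f 0 = 0 := by
  unfold sens
  simp

lemma lower (lam : Measure E) [IsProbabilityMeasure lam] (f : (Γ → E) → ZMod 2)
    (hf : Measurable f) (h : (bern Γ lam).real {x | f x = 0} = 1 / 2) (m : ℕ) (hm : 0 < m) :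
    1 / (2 * (m : ℝ)) ≤ sens lam f (1 / m) := by
  have hm' : (0 : ℝ) < m := by exact_mod_cast hm
  have key : ∀ k : ℕ, k ≤ m → sens lam f (k / m) ≤ k * sens lam f (1 / m) := by
    intro k
    induction k with
    | zero => intro _; simp [sens_zero]
    | succ k ih =>
      intro hk
      have h1 := ih (by omega)
      have hk' : ((k : ℝ) + 1) ≤ m := by exact_mod_cast hk
      have h2 := (tri lam f hf ((k : ℝ) / m) (((k + 1 : ℕ) : ℝ) / m) (by positivity)
        (by push_cast; gcongr; linarith)
        (by push_cast; rw [div_le_one hm']; exact hk')).1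
      have h3 : ((k + 1 : ℕ) : ℝ) / m - (k : ℝ) / m = 1 / m := by
        push_cast; field_simp; ring
      rw [h3] at h2
      push_cast at h2 ⊢
      linarith
  have h1 := key m le_rfl
  rw [div_self hm'.ne', half lam f hf h] at h1
  rw [div_le_iff₀ (by positivity)]
  linarith

lemma at_law (lam : Measure E) [IsProbabilityMeasure lam] (t : unitInterval) :
    (bern Γ (lam3 lam)).map (at' (t : ℝ)) = bern Γ lam := by
  have hm : Measurable (fun e : E3 E => (site (t : ℝ) t e).1) := measurable_fst.comp
    (measurable_site _ _)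
  have h1 : (lam3 lam).map (fun e : E3 E => (site (t : ℝ) t e).1) = lam := by
    ext C hC
    rw [map_apply hm hC]
    have := site_law lam t t le_rfl (C ×ˢ Set.univ) (hC.prod MeasurableSet.univ)
    simp only [sub_self, ENNReal.ofReal_zero, zero_mul, sub_zero, ENNReal.ofReal_one, one_mul,
      zero_add] at this
    have e1 : (fun e : E3 E => (site (t : ℝ) t e).1) ⁻¹' C =
      site (t : ℝ) t ⁻¹' (C ×ˢ Set.univ) := by
      ext e; simp
    have e2 : (fun e : E => (e, e)) ⁻¹' (C ×ˢ (Set.univ : Set E)) = C := by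
      ext e; simp
    rw [e1, this, e2]
  have h2 := infinitePi_map_pi (fun _ : Γ => lam3 lam) (fun _ : Γ => hm)
  have h3 : (fun (x : Γ → E3 E) (i : Γ) => (site (t : ℝ) t (x i)).1) = at' (t : ℝ) := rfl
  rw [h3] at h2
  unfold bern
  rw [h2]
  congr 1
  funext v
  exact h1

lemma clock (lam : Measure E) [IsProbabilityMeasure lam] (v : Γ) (h : unitInterval) :
    (bern Γ (lam3 lam)) {x | ((x v).2.2 : ℝ) < h} = ENNReal.ofReal h := by
  have h1 := (measurePreserving_eval_infinitePi (fun _ : Γ => lam3 lam) v)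
  have h2 : {x : Γ → E3 E | ((x v).2.2 : ℝ) < h} =
      Function.eval v ⁻¹' {e : E3 E | (e.2.2 : ℝ) < h} := rfl
  unfold bern
  rw [h2, h1.measure_preimage (measurableSet_lt_site (h : ℝ)).nullMeasurableSet]
  have h3 : {e : E3 E | (e.2.2 : ℝ) < h} = Set.univ ×ˢ (Set.univ ×ˢ Set.Iio h) := by
    ext e
    simp
  rw [h3, lam3, prod_prod, prod_prod, unitInterval.volume_Iio, measure_univ, one_mul, one_mul]

lemma small (lam : Measure E) [IsProbabilityMeasure lam] (f : (Γ → E) → ZMod 2)
    (hf : Measurable f) (ε : ℝ) (hε : 0 < ε) :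
    ∃ n : ℕ, ∀ h : ℝ, 0 ≤ h → h ≤ 1 → sens lam f h ≤ 2 * ε + n * h := by
  classical
  set A : Set (Γ → E) := {x | f x = 0} with hA
  have mA : MeasurableSet A := hf (measurableSet_singleton 0)
  have hdense : (bern Γ lam).MeasureDense (measurableCylinders (fun _ : Γ => E)) :=
    Measure.MeasureDense.of_generateFrom_isSetAlgebra_finite (bern Γ lam)
      isSetAlgebra_measurableCylinders
      generateFrom_measurableCylinders.symm
  obtain ⟨B, hB, hAB⟩ := hdense.approx A mA (measure_ne_top _ _) ε hε
  have mB : MeasurableSet B := hdense.measurable B hB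
  rw [mem_measurableCylinders] at hB
  obtain ⟨s, S, hS, hBs⟩ := hB
  refine ⟨s.card, fun h h0 h1 => ?_⟩
  set h' : unitInterval := ⟨h, h0, h1⟩ with hh'
  have hsub : {x : Γ → E3 E | f (at' 0 x) ≠ f (at' h x)} ⊆
      (at' 0 ⁻¹' (symmDiff A B) ∪ at' h ⁻¹' (symmDiff A B)) ∪
        ⋃ v ∈ s, {x : Γ → E3 E | ((x v).2.2 : ℝ) < h} := by
    intro x hx
    by_contra hcon
    simp only [Set.mem_union, Set.mem_iUnion, not_or, Set.mem_preimage, Set.mem_ofPred_eq,
      not_exists, not_lt, exists_prop, not_and] at hcon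
    obtain ⟨⟨hc1, hc2⟩, hc3⟩ := hcon
    have hB' : at' 0 x ∈ B ↔ at' h x ∈ B := by
      rw [hBs, mem_cylinder, mem_cylinder]
      have : s.restrict (at' 0 x) = s.restrict (at' h x) := by
        funext v
        simp only [Finset.restrict]
        unfold at'
        rw [if_neg (not_lt.mpr (x v).2.2.2.1), if_neg (not_lt.mpr (hc3 v v.2))]
      rw [this]
    have hm1 : at' 0 x ∈ A ↔ at' 0 x ∈ B := by
      rw [Set.mem_symmDiff] at hc1; tauto
    have hm2 : at' h x ∈ A ↔ at' h x ∈ B := by
      rw [Set.mem_symmDiff] at hc2; tauto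
    have hAA : at' 0 x ∈ A ↔ at' h x ∈ A := by rw [hm1, hm2, hB']
    simp only [hA, Set.mem_ofPred_eq] at hAA
    have := (zmod2_ne _ _).1 hx
    tauto
  have l1 : (bern Γ (lam3 lam)).real (at' 0 ⁻¹' (symmDiff A B)) ≤ ε := by
    have := at_law (Γ := Γ) lam 0
    simp only [Set.Icc.coe_zero] at this
    rw [measureReal_def, ← map_apply (measurable_at 0) (mA.symmDiff mB), this]
    exact ENNReal.toReal_le_of_le_ofReal hε.le hAB.le
  have l2 : (bern Γ (lam3 lam)).real (at' h ⁻¹' (symmDiff A B)) ≤ ε := by
    have := at_law (Γ := Γ) lam h'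
    rw [measureReal_def, ← map_apply (measurable_at h) (mA.symmDiff mB)]
    rw [show (h' : ℝ) = h from rfl] at this
    rw [this]
    exact ENNReal.toReal_le_of_le_ofReal hε.le hAB.le
  have l3 : (bern Γ (lam3 lam)).real (⋃ v ∈ s, {x : Γ → E3 E | ((x v).2.2 : ℝ) < h}) ≤
      s.card * h := by
    refine le_trans (measureReal_biUnion_finset_le _ _) ?_
    have : ∀ v ∈ s, (bern Γ (lam3 lam)).real {x : Γ → E3 E | ((x v).2.2 : ℝ) < h} = h := by
      intro v _
      have := clock (Γ := Γ) lam v h'
      rw [show (h' : ℝ) = h from rfl] at this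
      rw [measureReal_def, this, ENNReal.toReal_ofReal h0]
    rw [Finset.sum_congr rfl this]
    simp
  unfold sens
  refine le_trans (measureReal_mono hsub) ?_
  refine le_trans (measureReal_union_le _ _) ?_
  refine le_trans (add_le_add (measureReal_union_le _ _) le_rfl) ?_
  linarith

lemma cont (lam : Measure E) [IsProbabilityMeasure lam] (f : (Γ → E) → ZMod 2)
    (hf : Measurable f) : ContinuousOn (sens lam f) (Set.Icc 0 1) := by
  rw [Metric.continuousOn_iff]
  intro b hb ε hε
  obtain ⟨n, hn⟩ := small lam f hf (ε / 4) (by positivity)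
  refine ⟨ε / (2 * (n + 1)), by positivity, fun a ha hab => ?_⟩
  rw [Real.dist_eq] at hab ⊢
  have key : |sens lam f a - sens lam f b| ≤ sens lam f |a - b| := by
    rcases le_total a b with h | h
    · have := tri lam f hf a b ha.1 h hb.2
      rw [abs_sub_comm a b, abs_of_nonneg (by linarith : 0 ≤ b - a), abs_le]
      constructor <;> linarith [this.1, this.2]
    · have := tri lam f hf b a hb.1 h ha.2
      rw [abs_of_nonneg (by linarith : 0 ≤ a - b), abs_le]
      constructor <;> linarith [this.1, this.2]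
  have h1 : |a - b| ≤ 1 := by
    rw [abs_le]; constructor <;> linarith [ha.1, ha.2, hb.1, hb.2]
  have h2 := hn |a - b| (abs_nonneg _) h1
  have h3 : (n : ℝ) * |a - b| < ε / 2 := by
    rw [lt_div_iff₀ (by positivity)] at hab
    nlinarith [abs_nonneg (a - b)]
  linarith

end NOISE

/-- NOISE -/
theorem stmNOISE : StmNOISE := by
  intro Γ E _ _ _ lam _ f hf
  exact ⟨NOISE.sens_zero lam f, NOISE.cont lam f hf, NOISE.lower lam f hf⟩

end Pool.Agent.T6.H59.FI
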