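import Pool.Agent.T6.H59.FI.Star

/-!
# The expansion of small sets for factors of i.i.d.
-/

set_option autoImplicit false

namespace Pool.Agent.T6.H59.FI

open MeasureTheory Measure Classical MeasurableSpace

section
variable {Γ : Type} {E : Type} [MeasurableSpace E] [CountablyGenerated E]

/-- the first `m` bits of a label -/
noncomputable def qm (E : Type) [MeasurableSpace E] [CountablyGenerated E] (m : ℕ) (e : E) :
    Fin m → Bool := fun j => decide (e ∈ natGeneratingSequence E j)

theorem mf_qm (m : ℕ) : MF (qm E m) := by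
  intro b
  have : (qm E m) ⁻¹' {b} = ⋂ j : Fin m, {e | decide (e ∈ natGeneratingSequence E j) = b j} := by
    ext e
    simp only [Set.mem_preimage, Set.mem_singleton_iff, Set.mem_iInter, Set.mem_ofPred_eq]
    constructor
    · intro h j; rw [← h]; rfl
    · intro h; funext j; exact h j
  rw [this]
  refine MeasurableSet.iInter fun j => ?_
  cases hb : b j
  · have : {e | decide (e ∈ natGeneratingSequence E j) = false} = (natGeneratingSequence E j)ᶜ := by
      ext e; simp
    rw [this]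
    exact (measurableSet_natGeneratingSequence _).compl
  · have : {e | decide (e ∈ natGeneratingSequence E j) = true} = natGeneratingSequence E j := by
      ext e; simp
    rw [this]
    exact measurableSet_natGeneratingSequence _

theorem Dep.mono_m {α : Type} {X : (Γ → E) → α} {m m' : ℕ} {F : Finset Γ}
    (h : Dep (qm E m) X F) (hm : m ≤ m') : Dep (qm E m') X F := by
  obtain ⟨φ, hφ⟩ := h
  exact ⟨fun z => φ (fun u j => z u (Fin.castLE hm j)), fun x => hφ x⟩

/-- the cylinder sets -/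
def cyls (Γ E : Type) [MeasurableSpace E] [CountablyGenerated E] : Set (Set (Γ → E)) :=
  {A | ∃ m F, Dep (qm E m) (fun x => decide (x ∈ A)) F}

theorem isSetAlgebra_cyls : IsSetAlgebra (cyls Γ E) := by
  refine ⟨⟨0, ∅, fun _ => false, fun x => by simp⟩, ?_, ?_⟩
  · rintro s ⟨m, F, φ, hφ⟩
    refine ⟨m, F, fun z => !φ z, fun x => ?_⟩
    simp only at hφ ⊢
    rw [← hφ x]
    simp
  · rintro s t ⟨m, F, h1⟩ ⟨m', F', h2⟩
    obtain ⟨φ, hφ⟩ := (h1.mono_m (le_max_left m m')).mono (Finset.subset_union_left (s₂ := F'))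
    obtain ⟨ψ, hψ⟩ := (h2.mono_m (le_max_right m m')).mono (Finset.subset_union_right (s₁ := F))
    refine ⟨max m m', F ∪ F', fun z => φ z || ψ z, fun x => ?_⟩
    simp only at hφ hψ ⊢
    rw [← hφ x, ← hψ x]
    simp

theorem measurableSet_cyls {A : Set (Γ → E)} (hA : A ∈ cyls Γ E) : MeasurableSet A := by
  obtain ⟨m, F, h⟩ := hA
  have := h.mf (mf_qm m) true
  have e : (fun x => decide (x ∈ A)) ⁻¹' {true} = A := by ext x; simp
  rwa [e] at this

theorem generate_cyls : (MeasurableSpace.pi : MeasurableSpace (Γ → E)) =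
    generateFrom (cyls Γ E) := by
  refine le_antisymm ?_ (generateFrom_le fun A hA => measurableSet_cyls hA)
  unfold MeasurableSpace.pi
  refine iSup_le fun i => ?_
  have h : MeasurableSpace.comap (fun b : Γ → E => b i)
      (generateFrom (Set.range (natGeneratingSequence E))) ≤ generateFrom (cyls Γ E) := by
    rw [comap_generateFrom]
    refine generateFrom_le ?_
    rintro _ ⟨s, ⟨j, rfl⟩, rfl⟩
    refine measurableSet_generateFrom ⟨j + 1, {i}, fun z => z ⟨i, Finset.mem_singleton_self i⟩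
      ⟨j, Nat.lt_succ_self j⟩, fun x => ?_⟩
    rfl
  rwa [generateFrom_natGeneratingSequence E] at h

theorem dense_cyls (lam : Measure E) [IsProbabilityMeasure lam] :
    (bern Γ lam).MeasureDense (cyls Γ E) :=
  MeasureDense.of_generateFrom_isSetAlgebra_finite _ isSetAlgebra_cyls generate_cyls

theorem real_sub_le (μ : Measure (Γ → E)) [IsProbabilityMeasure μ] {A B : Set (Γ → E)} :
    |μ.real A - μ.real B| ≤ μ.real (symmDiff A B) := by
  have h1 : μ.real A ≤ μ.real B + μ.real (symmDiff A B) := by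
    refine le_trans (measureReal_mono (s₂ := B ∪ symmDiff A B) ?_) (measureReal_union_le _ _)
    intro x hx
    by_cases hB : x ∈ B
    · exact Or.inl hB
    · exact Or.inr (Or.inl ⟨hx, hB⟩)
  have h2 : μ.real B ≤ μ.real A + μ.real (symmDiff A B) := by
    refine le_trans (measureReal_mono (s₂ := A ∪ symmDiff A B) ?_) (measureReal_union_le _ _)
    intro x hx
    by_cases hA : x ∈ A
    · exact Or.inl hA
    · exact Or.inr (Or.inr ⟨hx, hA⟩)
  rw [abs_le]
  constructor <;> linarith

end

variable {Γ : Type} [Group Γ] [Countable Γ] {E : Type} [MeasurableSpace E] [CountablyGenerated E]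
  {ι : Type} [Fintype ι] {lam : Measure E} [IsProbabilityMeasure lam]

/-- the inequality for cylinder sets -/
theorem sse_cyl (T : Tree Γ ι) {A : Set (Γ → E)} (hA : A ∈ cyls Γ E) :
    ((Fintype.card ι : ℝ) - 1) * Real.binEntropy ((bern Γ lam).real A) ≤
      Real.binEntropy ((bern Γ lam).real (⋃ i, tr (T.s i) ⁻¹' A)) +
        (bern Γ lam).real (⋃ i, tr (T.s i) ⁻¹' A) * (Fintype.card ι * Real.log 2) := by
  obtain ⟨m, F, hX⟩ := hA
  have hq := mf_qm (E := E) m
  set X : (Γ → E) → Bool := fun x => decide (x ∈ A) with hXdef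
  have h1 := star_ineq (lam := lam) hq T hX
  have hXm := hX.mf hq
  have hYm : MF (star T X) := (dep_star (T := T) hX).mf hq
  have e1 : X ⁻¹' {true} = A := by ext x; simp [hXdef]
  have h2 : Hm (bern Γ lam) X = Real.binEntropy ((bern Γ lam).real A) := by
    rw [Hm_bool hXm, e1]
  have h3 := Hm_le_bin (P := bern Γ lam) hYm (fun _ => false) (Fintype.card ι * Real.log 2) (by
    rw [Fintype.card_fun, Fintype.card_bool]
    push_cast
    rw [Real.log_pow])
  have e2 : {ξ : Γ → E | star T X ξ ≠ fun _ => false} = ⋃ i, tr (T.s i) ⁻¹' A := by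
    ext x
    simp only [Set.mem_ofPred_eq, Set.mem_iUnion, Set.mem_preimage, ne_eq, funext_iff, not_forall,
      star, hXdef, decide_eq_false_iff_not, not_not]
  rw [e2] at h3
  refine le_trans ?_ h3
  rw [← h2]
  have hnn : 0 ≤ Hm (bern Γ lam) X := Hm_nonneg hXm
  have hnn' : 0 ≤ Hm (bern Γ lam) (star T X) := Hm_nonneg hYm
  rw [← ENNReal.ofReal_natCast, ← ENNReal.ofReal_mul (by positivity),
    ENNReal.ofReal_le_ofReal_iff hnn'] at h1
  refine le_trans ?_ h1
  refine mul_le_mul_of_nonneg_right ?_ hnn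
  have : Fintype.card ι ≤ (Fintype.card ι - 1) + 1 := by omega
  have h4 : (Fintype.card ι : ℝ) ≤ ((Fintype.card ι - 1 : ℕ) : ℝ) + 1 := by exact_mod_cast this
  linarith

theorem stmSSE : StmSSE := by
  intro Γ ι E _ _ _ _ _ lam _ T A hA
  set μ := bern Γ lam with hμ
  have happ : ∀ k : ℕ, ∃ B ∈ cyls Γ E, μ (symmDiff A B) < ENNReal.ofReal (1 / ((k : ℝ) + 1)) :=
    fun k => (dense_cyls lam).approx A hA (measure_ne_top _ _) _ (by positivity)
  choose B hB hAB using happ
  have hr : ∀ k, μ.real (symmDiff A (B k)) ≤ 1 / ((k : ℝ) + 1) := by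
    intro k
    rw [measureReal_def]
    exact ENNReal.toReal_le_of_le_ofReal (by positivity) (hAB k).le
  have hlim : Filter.Tendsto (fun k : ℕ => 1 / ((k : ℝ) + 1)) Filter.atTop (nhds 0) :=
    tendsto_one_div_add_atTop_nhds_zero_nat
  have h1 : Filter.Tendsto (fun k => μ.real (B k)) Filter.atTop (nhds (μ.real A)) := by
    rw [tendsto_iff_dist_tendsto_zero]
    refine squeeze_zero (fun k => dist_nonneg) (fun k => ?_) hlim
    rw [Real.dist_eq, abs_sub_comm]
    exact (real_sub_le μ).trans (hr k)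
  have h2 : Filter.Tendsto (fun k => μ.real (⋃ i, tr (T.s i) ⁻¹' (B k))) Filter.atTop
      (nhds (μ.real (⋃ i, tr (T.s i) ⁻¹' A))) := by
    rw [tendsto_iff_dist_tendsto_zero]
    have hlim' : Filter.Tendsto (fun k : ℕ => (Fintype.card ι : ℝ) * (1 / ((k : ℝ) + 1)))
        Filter.atTop (nhds 0) := by
      simpa using hlim.const_mul (Fintype.card ι : ℝ)
    refine squeeze_zero (fun k => dist_nonneg) (fun k => ?_) hlim'
    rw [Real.dist_eq, abs_sub_comm]
    refine (real_sub_le μ).trans ?_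
    have hsub : symmDiff (⋃ i, tr (T.s i) ⁻¹' A) (⋃ i, tr (T.s i) ⁻¹' (B k)) ⊆
        ⋃ i, tr (T.s i) ⁻¹' (symmDiff A (B k)) := by
      rintro x (⟨h, h'⟩ | ⟨h, h'⟩)
      · obtain ⟨i, hi⟩ := Set.mem_iUnion.1 h
        refine Set.mem_iUnion.2 ⟨i, Or.inl ⟨hi, fun hb => h' (Set.mem_iUnion.2 ⟨i, hb⟩)⟩⟩
      · obtain ⟨i, hi⟩ := Set.mem_iUnion.1 h
        refine Set.mem_iUnion.2 ⟨i, Or.inr ⟨hi, fun hb => h' (Set.mem_iUnion.2 ⟨i, hb⟩)⟩⟩
    refine (measureReal_mono hsub).trans ?_
    refine (measureReal_iUnion_fintype_le _).trans ?_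
    have : ∀ i, μ.real (tr (T.s i) ⁻¹' (symmDiff A (B k))) ≤ 1 / ((k : ℝ) + 1) := by
      intro i
      have hmeas : MeasurableSet (symmDiff A (B k)) :=
        hA.symmDiff (measurableSet_cyls (hB k))
      rw [measureReal_def, (mp_tr (lam := lam) (T.s i)).measure_preimage
        hmeas.nullMeasurableSet]
      exact hr k
    refine (Finset.sum_le_sum fun i _ => this i).trans ?_
    rw [Finset.sum_const, nsmul_eq_mul, Finset.card_univ]
  have hc := Real.binEntropy_continuous
  have l1 : Filter.Tendsto (fun k => ((Fintype.card ι : ℝ) - 1) * Real.binEntropy (μ.real (B k)))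
      Filter.atTop (nhds (((Fintype.card ι : ℝ) - 1) * Real.binEntropy (μ.real A))) :=
    ((hc.tendsto _).comp h1).const_mul _
  have l2 : Filter.Tendsto (fun k => Real.binEntropy (μ.real (⋃ i, tr (T.s i) ⁻¹' (B k))) +
      μ.real (⋃ i, tr (T.s i) ⁻¹' (B k)) * (Fintype.card ι * Real.log 2)) Filter.atTop
      (nhds (Real.binEntropy (μ.real (⋃ i, tr (T.s i) ⁻¹' A)) +
      μ.real (⋃ i, tr (T.s i) ⁻¹' A) * (Fintype.card ι * Real.log 2))) :=
    ((hc.tendsto _).comp h2).add (h2.mul_const _)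
  exact le_of_tendsto_of_tendsto' l1 l2 (fun k => sse_cyl T (hB k))

end Pool.Agent.T6.H59.FI
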