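import Pool.Agent.T6.H59.FI.Seeds

/-!
# Properties of the conditional entropy given finitely many labels
-/

set_option autoImplicit false

namespace Pool.Agent.T6.H59.FI

open MeasureTheory Measure Classical

variable {Γ : Type} [Group Γ] {E Q : Type} [MeasurableSpace E] [Fintype Q]
  {lam : Measure E} [IsProbabilityMeasure lam] {q : E → Q} {α β : Type} [Fintype α] [Fintype β]

omit [Group Γ] in
/-- only the labels in the window matter -/
theorem hh_inter (hq : MF q) {X : (Γ → E) → α} {F : Finset Γ} (hX : Dep q X F) (U : Finset Γ) :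
    hh lam q X U = hh lam q X (U ∩ F) := by
  unfold hh
  have hm := hX.mf hq
  have h1 : Hm (bern Γ lam) (fun x => (X x, zeta q U x)) =
      Hm (bern Γ lam) (fun x => ((X x, zeta q (U ∩ F) x), zeta q (U \ F) x)) := by
    refine Hm_eq (hm.pair (mf_zeta hq _)) ((hm.pair (mf_zeta hq _)).pair (mf_zeta hq _))
      (fun p => ((p.1, fun u => p.2 ⟨u.1, (Finset.mem_inter.1 u.2).1⟩),
        fun u => p.2 ⟨u.1, (Finset.mem_sdiff.1 u.2).1⟩))
      (fun p => (p.1.1, fun u => if h : u.1 ∈ F then p.1.2 ⟨u.1, Finset.mem_inter.2 ⟨u.2, h⟩⟩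
        else p.2 ⟨u.1, Finset.mem_sdiff.2 ⟨u.2, h⟩⟩)) (fun x => rfl) ?_
    intro x
    simp only [Prod.mk.injEq, true_and]
    funext u
    by_cases h : u.1 ∈ F
    · simp only [h, dif_pos]; rfl
    · simp only [h, dif_neg, not_false_eq_true]; rfl
  have hdep : Dep q (fun x : Γ → E => (X x, zeta q (U ∩ F) x)) F := by
    obtain ⟨φ, hφ⟩ := hX
    exact ⟨fun z => (φ z, fun u => z ⟨u.1, (Finset.mem_inter.1 u.2).2⟩),
      fun x => by
        show (X x, zeta q (U ∩ F) x) = _
        rw [hφ x]; rfl⟩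
  rw [h1, Hm_indep_zeta hq hdep Finset.disjoint_sdiff, Hm_zeta hq]
  have h2 : U.card = (U ∩ F).card + (U \ F).card := by
    rw [Finset.card_inter_add_card_sdiff]
  rw [h2]
  push_cast
  ring

omit [Group Γ] in
/-- nothing is left when all labels of the window are known -/
theorem hh_self (hq : MF q) {X : (Γ → E) → α} {F : Finset Γ} (hX : Dep q X F) :
    hh lam q X F = 0 := by
  unfold hh
  have hm := hX.mf hq
  obtain ⟨φ, hφ⟩ := hX
  have h1 : Hm (bern Γ lam) (fun x => (X x, zeta q F x)) = Hm (bern Γ lam) (zeta q F) :=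
    Hm_eq (hm.pair (mf_zeta hq _)) (mf_zeta hq _) (fun p => p.2) (fun z => (φ z, z))
      (fun x => rfl) (fun x => by simp only [hφ x])
  rw [h1, Hm_zeta hq]
  ring

omit [Group Γ] in
theorem hh_empty (hq : MF q) {X : (Γ → E) → α} (hX : MF X) :
    hh lam q X ∅ = Hm (bern Γ lam) X := by
  unfold hh
  have h1 : Hm (bern Γ lam) (fun x => (X x, zeta q ∅ x)) = Hm (bern Γ lam) X :=
    Hm_eq (hX.pair (mf_zeta hq _)) hX (fun p => p.1)
      (fun a => (a, fun u => (Finset.notMem_empty _ u.2).elim)) (fun x => rfl) (fun x => by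
        simp only [Prod.mk.injEq, true_and]
        funext u
        exact (Finset.notMem_empty _ u.2).elim)
  rw [h1]
  simp

omit [Group Γ] in
theorem hh_insert_le (hq : MF q) {X : (Γ → E) → α} (hX : MF X) {U : Finset Γ} {i : Γ}
    (hi : i ∉ U) : hh lam q X (insert i U) ≤ hh lam q X U := by
  unfold hh
  have hqi : MF (fun x : Γ → E => q (x i)) := hq.comp_meas (measurable_pi_apply i)
  rw [Hm_insert hq hX hi, Finset.card_insert_of_notMem hi]
  have h1 := Hm_subadd (P := bern Γ lam) (hX.pair (mf_zeta hq U)) hqi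
  rw [Hm_one hq] at h1
  push_cast
  linarith

omit [Group Γ] in
/-- data processing -/
theorem hh_data (hq : MF q) {Y : (Γ → E) → β} (hY : MF Y) (φ : β → α) {U : Finset Γ} {i : Γ}
    (hi : i ∉ U) :
    hh lam q (fun x => φ (Y x)) U - hh lam q (fun x => φ (Y x)) (insert i U) ≤
      hh lam q Y U - hh lam q Y (insert i U) := by
  unfold hh
  have hX : MF (fun x => φ (Y x)) := hY.comp φ
  have hqi : MF (fun x : Γ → E => q (x i)) := hq.comp_meas (measurable_pi_apply i)
  have hz : MF (zeta (Γ := Γ) q U) := mf_zeta hq U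
  rw [Hm_insert hq hX hi, Hm_insert hq hY hi]
  have h1 := Hm_submod (P := bern Γ lam) hY hqi (hX.pair hz)
  have e1 : Hm (bern Γ lam) (fun x => (Y x, q (x i), (φ (Y x), zeta q U x))) =
      Hm (bern Γ lam) (fun x => ((Y x, zeta q U x), q (x i))) :=
    Hm_eq (hY.pair (hqi.pair (hX.pair hz))) ((hY.pair hz).pair hqi)
      (fun p => ((p.1, p.2.2.2), p.2.1)) (fun p => (p.1.1, p.2, (φ p.1.1, p.1.2)))
      (fun x => rfl) (fun x => rfl)
  have e2 : Hm (bern Γ lam) (fun x => (Y x, (φ (Y x), zeta q U x))) =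
      Hm (bern Γ lam) (fun x => (Y x, zeta q U x)) :=
    Hm_eq (hY.pair (hX.pair hz)) (hY.pair hz) (fun p => (p.1, p.2.2))
      (fun p => (p.1, (φ p.1, p.2))) (fun x => rfl) (fun x => rfl)
  have e3 : Hm (bern Γ lam) (fun x => (q (x i), (φ (Y x), zeta q U x))) =
      Hm (bern Γ lam) (fun x => ((φ (Y x), zeta q U x), q (x i))) :=
    Hm_eq (hqi.pair (hX.pair hz)) ((hX.pair hz).pair hqi) (fun p => (p.2, p.1))
      (fun p => (p.2, p.1)) (fun x => rfl) (fun x => rfl)
  rw [e1, e2, e3] at h1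
  linarith

/-- translation is measure preserving -/
theorem mp_tr (g : Γ) : MeasurePreserving (tr (E := E) g) (bern Γ lam) (bern Γ lam) := by
  refine ⟨measurable_pi_lambda _ (fun v => measurable_pi_apply _), ?_⟩
  have := map_infinitePi_infinitePi_of_inj (P := fun _ : Γ => lam) (mul_left_injective g)
  exact this

/-- translation of the conditional entropy -/
theorem hh_tr (hq : MF q) {X : (Γ → E) → α} (hX : MF X) (g : Γ) (U : Finset Γ) :
    hh lam q (fun x => X (tr g x)) (U.image (· * g)) = hh lam q X U := by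
  unfold hh
  have hmt : Measurable (tr (E := E) g) := (mp_tr (lam := lam) g).measurable
  have h1 : Hm (bern Γ lam) (fun x => (X (tr g x), zeta q (U.image (· * g)) x)) =
      Hm (bern Γ lam) (fun x => (X (tr g x), zeta q U (tr g x))) := by
    refine Hm_eq ((hX.comp_meas hmt).pair (mf_zeta hq _))
      ((hX.comp_meas hmt).pair ((mf_zeta hq _).comp_meas hmt))
      (fun p => (p.1, fun u => p.2 ⟨u.1 * g, Finset.mem_image_of_mem _ u.2⟩))
      (fun p => (p.1, fun u => p.2 ⟨u.1 * g⁻¹, by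
        obtain ⟨a, ha, hb⟩ := Finset.mem_image.1 u.2
        rw [← hb]; simpa using ha⟩)) (fun x => rfl) ?_
    intro x
    simp only [Prod.mk.injEq, true_and]
    funext u
    show q (x (u.1 * g⁻¹ * g)) = q (x u)
    rw [inv_mul_cancel_right]
  rw [h1, Finset.card_image_of_injective _ (mul_left_injective g)]
  have := Hm_map (P := bern Γ lam) (mp_tr (E := E) (lam := lam) g)
    (hX.pair (mf_zeta (Γ := Γ) hq U))
  rw [this]

theorem Dep.tr {X : (Γ → E) → α} {F : Finset Γ} (h : Dep q X F) (g : Γ) :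
    Dep q (fun x => X (tr g x)) (F.image (· * g)) := by
  obtain ⟨φ, hφ⟩ := h
  refine ⟨fun z => φ (fun u => z ⟨u.1 * g, Finset.mem_image_of_mem _ u.2⟩), fun x => ?_⟩
  exact hφ _

end Pool.Agent.T6.H59.FI
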