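import Mathlib

/-!
# Factors of i.i.d. are not closed under dbar limits on regular trees: definitions

`Γ` is a countable group with a finite family `s : ι → Γ` (the generators and their inverses of a
free group).  The neighbours of `v` are the elements `s i * v`; the group acts by right
translations.
-/

set_option autoImplicit false

namespace Pool.Agent.T6.H59.FI

open MeasureTheory Measure

/-- translation of a configuration -/
def tr {Γ E : Type*} [Group Γ] (g : Γ) (x : Γ → E) : Γ → E := fun v => x (v * g)

/-- the product measure -/
noncomputable def bern (Γ : Type*) {E : Type*} [MeasurableSpace E] (lam : Measure E)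
    [IsProbabilityMeasure lam] : Measure (Γ → E) := infinitePi (fun _ : Γ => lam)

noncomputable instance {Γ E : Type*} [MeasurableSpace E] (lam : Measure E)
    [IsProbabilityMeasure lam] : IsProbabilityMeasure (bern Γ lam) := by
  unfold bern; infer_instance

/-- the fair coin on `ZMod 2` -/
noncomputable def coin : Measure (ZMod 2) := ENNReal.ofReal (1 / 2) • Measure.count

noncomputable instance : IsProbabilityMeasure coin := ⟨by
  unfold coin
  rw [Measure.smul_apply, Measure.count_univ, smul_eq_mul, ENat.card_eq_coe_fintype_card,
    ZMod.card]
  rw [show ((((2 : ℕ) : ℕ∞)) : ENNReal) = ENNReal.ofReal 2 by simp,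
    ← ENNReal.ofReal_mul (by norm_num)]
  norm_num⟩

/-- A finite family of elements of a group with the combinatorial properties of the generators of a
free group: every `w` has children `s i * w`, `i ∈ ch w`, all but at most one `i` are in `ch w`,
and every element of the group is the child of at most one element. -/
structure Tree (Γ ι : Type) [Group Γ] [Fintype ι] where
  s : ι → Γ
  ch : Γ → Finset ι
  card_ch : ∀ w, Fintype.card ι ≤ (ch w).card + 1
  inj : ∀ w w' i i', i ∈ ch w → i' ∈ ch w' → s i * w = s i' * w' → w = w' ∧ i = i'
  inv : ∀ i, ∃ j, s j = (s i)⁻¹

/-- the sum over the neighbours, modulo 2 -/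
def nb {Γ ι : Type} [Group Γ] [Fintype ι] (T : Tree Γ ι) (y : Γ → ZMod 2) : Γ → ZMod 2 :=
  fun v => ∑ i, y (T.s i * v)

/-- the space of the labels of two coupled configurations: a label, an independent label, and the
time at which the first label is replaced by the second -/
abbrev E3 (E : Type*) := E × E × unitInterval

/-- the law of the labels of two coupled configurations -/
noncomputable def lam3 {E : Type*} [MeasurableSpace E] (lam : Measure E) : Measure (E3 E) :=
  lam.prod (lam.prod (volume : Measure unitInterval))

noncomputable instance {E : Type*} [MeasurableSpace E] (lam : Measure E)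
    [IsProbabilityMeasure lam] : IsProbabilityMeasure (lam3 lam) := by
  unfold lam3; infer_instance

open Classical in
/-- the configuration at time `t` -/
noncomputable def at' {Γ E : Type*} (t : ℝ) (x : Γ → E3 E) : Γ → E :=
  fun v => if ((x v).2.2 : ℝ) < t then (x v).2.1 else (x v).1

/-- noise sensitivity of a `0-1` valued function: the probability that it changes when every label
is replaced with probability `t` -/
noncomputable def sens {Γ E : Type*} [MeasurableSpace E] (lam : Measure E)
    [IsProbabilityMeasure lam] (f : (Γ → E) → ZMod 2) (t : ℝ) : ℝ :=
  (bern Γ (lam3 lam)).real {x | f (at' 0 x) ≠ f (at' t x)}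

end Pool.Agent.T6.H59.FI
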