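import Pool.Agent.T6.H59.FI.Stm
import Pool.Agent.H137R2.PFR.Basic

/-!
# Shannon entropy of finite valued random variables
-/

set_option autoImplicit false

namespace Pool.Agent.T6.H59.FI

open MeasureTheory
open H137.PFR (ent push Law)

universe u1 u2 u3 u4

variable {Ξ : Type u1} {α : Type u2} {β : Type u3} {γ : Type u4} [MeasurableSpace Ξ] [Fintype α]
  [Fintype β] [Fintype γ]

/-- all fibres are measurable -/
def MF {Ξ : Type u1} {α : Type u2} [MeasurableSpace Ξ] (X : Ξ → α) : Prop :=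
  ∀ a, MeasurableSet (X ⁻¹' {a})

/-- the law of a finite valued random variable -/
noncomputable def lw {Ξ : Type u1} {α : Type u2} [MeasurableSpace Ξ] (P : Measure Ξ) (X : Ξ → α) :
    α → ℝ := fun a => P.real (X ⁻¹' {a})

/-- the entropy of a finite valued random variable -/
noncomputable def Hm {Ξ : Type u1} {α : Type u2} [MeasurableSpace Ξ] [Fintype α]
    (P : Measure Ξ) (X : Ξ → α) : ℝ := ent (lw P X)

omit [Fintype β] in
theorem MF.comp {X : Ξ → α} (hX : MF X) (φ : α → β) : MF (fun ξ => φ (X ξ)) := by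
  classical
  intro b
  have : (fun ξ => φ (X ξ)) ⁻¹' {b} = ⋃ a ∈ (Finset.univ.filter (fun a => φ a = b)), X ⁻¹' {a} := by
    ext ξ; simp
  rw [this]
  exact Finset.measurableSet_biUnion _ (fun a _ => hX a)

omit [Fintype α] [Fintype β] in
theorem MF.pair {X : Ξ → α} {Y : Ξ → β} (hX : MF X) (hY : MF Y) : MF (fun ξ => (X ξ, Y ξ)) := by
  rintro ⟨a, b⟩
  have : (fun ξ => (X ξ, Y ξ)) ⁻¹' {(a, b)} = X ⁻¹' {a} ∩ Y ⁻¹' {b} := by
    ext ξ; simp
  rw [this]
  exact (hX a).inter (hY b)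

omit [Fintype α] in
theorem MF.comp_meas {Ξ' : Type*} [MeasurableSpace Ξ'] {X : Ξ → α} (hX : MF X) {T : Ξ' → Ξ}
    (hT : Measurable T) : MF (fun ξ => X (T ξ)) := fun a => hT (hX a)

variable {P : Measure Ξ} [IsProbabilityMeasure P]

omit [Fintype β] in
theorem lw_comp {X : Ξ → α} (hX : MF X) (φ : α → β) :
    lw P (fun ξ => φ (X ξ)) = push (lw P X) φ := by
  classical
  funext b
  unfold lw push
  have : (fun ξ => φ (X ξ)) ⁻¹' {b} = ⋃ a ∈ (Finset.univ.filter (fun a => φ a = b)), X ⁻¹' {a} := by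
    ext ξ; simp
  have hd : Set.PairwiseDisjoint (↑(Finset.univ.filter (fun a => φ a = b)) : Set α)
      (fun a => X ⁻¹' {a}) := by
    intro a _ a' _ h
    refine Set.disjoint_left.2 ?_
    intro ξ h1 h2
    exact h (h1.symm.trans h2)
  rw [this, measureReal_biUnion_finset hd (fun a _ => hX a), Finset.sum_filter]

theorem law_lw {X : Ξ → α} (hX : MF X) : Law (lw P X) := by
  classical
  refine ⟨fun a => measureReal_nonneg, ?_⟩
  unfold lw
  have hd : Set.PairwiseDisjoint (↑(Finset.univ : Finset α) : Set α)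
      (fun a => X ⁻¹' {a}) := by
    intro a _ a' _ h
    refine Set.disjoint_left.2 ?_
    intro ξ h1 h2
    exact h (h1.symm.trans h2)
  have h := measureReal_biUnion_finset (μ := P) hd (fun a _ => hX a)
  have h' : (⋃ b ∈ (Finset.univ : Finset α), X ⁻¹' {b}) = Set.univ := by
    ext ξ; simp
  rw [h'] at h
  rw [← h]; simp

theorem Hm_comp {X : Ξ → α} (hX : MF X) (φ : α → β) :
    Hm P (fun ξ => φ (X ξ)) = H137.PFR.H (lw P X) φ := by
  unfold Hm H137.PFR.H
  rw [lw_comp hX]

theorem Hm_nonneg {X : Ξ → α} (hX : MF X) : 0 ≤ Hm P X := by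
  have := H137.PFR.H_nonneg (law_lw (P := P) hX) (fun a => a)
  rw [← Hm_comp hX] at this
  exact this

theorem Hm_comp_le {X : Ξ → α} (hX : MF X) (φ : α → β) : Hm P (fun ξ => φ (X ξ)) ≤ Hm P X := by
  have := H137.PFR.H_comp_le (law_lw (P := P) hX) (fun a => a) φ
  rw [← Hm_comp hX, ← Hm_comp hX] at this
  exact this

theorem Hm_eq {X : Ξ → α} {Y : Ξ → β} (hX : MF X) (hY : MF Y) (f : α → β) (g : β → α)
    (hf : ∀ ξ, f (X ξ) = Y ξ) (hg : ∀ ξ, g (Y ξ) = X ξ) : Hm P X = Hm P Y := by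
  have h1 := Hm_comp_le (P := P) hX f
  have h2 := Hm_comp_le (P := P) hY g
  simp only [hf] at h1
  simp only [hg] at h2
  exact le_antisymm h2 h1

theorem Hm_submod {X : Ξ → α} {Y : Ξ → β} {Z : Ξ → γ} (hX : MF X) (hY : MF Y) (hZ : MF Z) :
    Hm P (fun ξ => (X ξ, Y ξ, Z ξ)) + Hm P Z ≤
      Hm P (fun ξ => (X ξ, Z ξ)) + Hm P (fun ξ => (Y ξ, Z ξ)) := by
  have hW : MF (fun ξ => (X ξ, Y ξ, Z ξ)) := hX.pair (hY.pair hZ)
  have := H137.PFR.H_submod (law_lw (P := P) hW) (fun a => a.1) (fun a => a.2.1) (fun a => a.2.2)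
  rw [← Hm_comp hW, ← Hm_comp hW, ← Hm_comp hW, ← Hm_comp hW] at this
  exact this

theorem Hm_subadd {X : Ξ → α} {Y : Ξ → β} (hX : MF X) (hY : MF Y) :
    Hm P (fun ξ => (X ξ, Y ξ)) ≤ Hm P X + Hm P Y := by
  have hW : MF (fun ξ => (X ξ, Y ξ)) := hX.pair hY
  have := H137.PFR.H_subadd (law_lw (P := P) hW) (fun a => a.1) (fun a => a.2)
  rw [← Hm_comp hW, ← Hm_comp hW, ← Hm_comp hW] at this
  exact this

theorem Hm_indep {X : Ξ → α} {Y : Ξ → β} (hX : MF X) (hY : MF Y)
    (hi : ∀ a b, P.real (X ⁻¹' {a} ∩ Y ⁻¹' {b}) = P.real (X ⁻¹' {a}) * P.real (Y ⁻¹' {b})) :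
    Hm P (fun ξ => (X ξ, Y ξ)) = Hm P X + Hm P Y := by
  have h1 : ∑ a, lw P X a = 1 := (law_lw hX).2
  have h2 : ∑ a, lw P Y a = 1 := (law_lw hY).2
  have h3 : ∀ a b, lw P (fun ξ => (X ξ, Y ξ)) (a, b) = lw P X a * lw P Y b := by
    intro a b
    unfold lw
    rw [← hi]
    congr 1
    ext ξ; simp
  unfold Hm ent
  rw [Fintype.sum_prod_type]
  simp only [h3, Real.negMulLog_mul, Finset.sum_add_distrib, ← Finset.mul_sum, ← Finset.sum_mul,
    h1, h2, one_mul]

theorem Hm_map {Ξ' : Type*} [MeasurableSpace Ξ'] {P' : Measure Ξ'} {T : Ξ' → Ξ}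
    (hT : MeasurePreserving T P' P) {X : Ξ → α} (hX : MF X) :
    Hm P' (fun ξ => X (T ξ)) = Hm P X := by
  unfold Hm
  congr 1
  funext a
  unfold lw
  have : (fun ξ => X (T ξ)) ⁻¹' {a} = T ⁻¹' (X ⁻¹' {a}) := rfl
  rw [this, measureReal_def, measureReal_def, hT.measure_preimage (hX a).nullMeasurableSet]

/-- the entropy of a yes-no variable -/
theorem Hm_bool {X : Ξ → Bool} (hX : MF X) :
    Hm P X = Real.binEntropy (P.real (X ⁻¹' {true})) := by
  have h := (law_lw (P := P) hX).2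
  rw [Fintype.sum_bool] at h
  unfold Hm ent
  rw [Fintype.sum_bool, Real.binEntropy_eq_negMulLog_add_negMulLog_one_sub]
  have : lw P X false = 1 - P.real (X ⁻¹' {true}) := by
    unfold lw at h ⊢
    linarith
  rw [this]
  rfl

/-- entropy of a variable which is rarely different from `a₀` -/
theorem Hm_le_bin {X : Ξ → α} (hX : MF X) (a₀ : α) (C : ℝ)
    (hC : Real.log (Fintype.card α) ≤ C) :
    Hm P X ≤ Real.binEntropy (P.real {ξ | X ξ ≠ a₀}) + P.real {ξ | X ξ ≠ a₀} * C := by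
  classical
  set N := P.real {ξ | X ξ ≠ a₀} with hN
  have hsum := (law_lw (P := P) hX).2
  have hnn := (law_lw (P := P) hX).1
  have h1 : lw P X a₀ = 1 - N := by
    have : {ξ | X ξ ≠ a₀} = (X ⁻¹' {a₀})ᶜ := by ext ξ; simp
    rw [hN, this, measureReal_compl (hX a₀)]
    simp [lw]
  have hN0 : 0 ≤ N := measureReal_nonneg
  have hN1 : N ≤ 1 := by rw [hN]; exact measureReal_le_one
  have h2 : ∑ a ∈ Finset.univ.erase a₀, lw P X a = N := by
    have := Finset.add_sum_erase Finset.univ (fun a => lw P X a) (Finset.mem_univ a₀)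
    linarith
  unfold Hm ent
  rw [← Finset.add_sum_erase Finset.univ _ (Finset.mem_univ a₀), h1,
    Real.binEntropy_eq_negMulLog_add_negMulLog_one_sub]
  have hcardC : 0 ≤ C := le_trans (Real.log_natCast_nonneg _) hC
  suffices h : ∑ x ∈ Finset.univ.erase a₀, Real.negMulLog (lw P X x) ≤
      Real.negMulLog N + N * C by linarith
  rcases hN0.eq_or_lt with h0 | h0
  · -- N = 0
    rw [← h0] at h2 ⊢
    have : ∀ x ∈ Finset.univ.erase a₀, lw P X x = 0 :=
      (Finset.sum_eq_zero_iff_of_nonneg (fun x _ => hnn x)).1 h2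
    rw [Finset.sum_eq_zero (fun x hx => by rw [this x hx, Real.negMulLog_zero])]
    simp
  · -- the normalised law
    have hne : (Finset.univ.erase a₀).Nonempty := by
      by_contra hcon
      rw [Finset.not_nonempty_iff_eq_empty] at hcon
      rw [hcon, Finset.sum_empty] at h2
      linarith
    set m : ℕ := (Finset.univ.erase a₀).card with hm
    have hm0 : (0 : ℝ) < m := by
      have := hne.card_pos
      exact_mod_cast this
    -- Jensen
    have hj := Real.concaveOn_negMulLog.le_map_sum (t := Finset.univ.erase a₀)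
      (w := fun _ => (1 : ℝ) / m) (p := fun x => lw P X x) (fun _ _ => by positivity)
      (by rw [Finset.sum_const, nsmul_eq_mul, ← hm]; field_simp)
      (fun x _ => hnn x)
    have hj' : ∑ x ∈ Finset.univ.erase a₀, (1 : ℝ) / m * Real.negMulLog (lw P X x) ≤
      Real.negMulLog (∑ x ∈ Finset.univ.erase a₀, (1 : ℝ) / m * lw P X x) := hj
    rw [← Finset.mul_sum, ← Finset.mul_sum, h2] at hj'
    have h3 : ∑ x ∈ Finset.univ.erase a₀, Real.negMulLog (lw P X x) ≤
        m * Real.negMulLog (1 / m * N) := by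
      have := mul_le_mul_of_nonneg_left hj' hm0.le
      rw [← mul_assoc] at this
      have e : (m : ℝ) * (1 / m) = 1 := by field_simp
      rw [e, one_mul] at this
      exact this
    have h4 : (m : ℝ) * Real.negMulLog (1 / m * N) = Real.negMulLog N + N * Real.log m := by
      rw [Real.negMulLog_mul]
      unfold Real.negMulLog
      rw [one_div, Real.log_inv]
      field_simp
      ring
    have h5 : Real.log m ≤ C := by
      refine le_trans (Real.log_le_log hm0 ?_) hC
      have : m ≤ Fintype.card α := by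
        rw [hm]; exact Finset.card_le_univ _
      exact_mod_cast this
    calc _ ≤ _ := h3
      _ = _ := h4
      _ ≤ _ := by nlinarith

end Pool.Agent.T6.H59.FI
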