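import Pool.Agent.T6.H59.FI.Cond

/-!
# Revealing the labels in a random order
-/

set_option autoImplicit false

namespace Pool.Agent.T6.H59.FI

open MeasureTheory Measure Classical

variable {Γ : Type} [Group Γ] {E Q : Type} [MeasurableSpace E] [Fintype Q]
  {lam : Measure E} [IsProbabilityMeasure lam] {q : E → Q} {α β : Type} [Fintype α] [Fintype β]

/-- the elements of `F` which come before `i` -/
noncomputable def before {Γ : Type} (τ : Γ → unitInterval) (i : Γ) (F : Finset Γ) : Finset Γ :=
  F.filter (fun j => τ j < τ i)

omit [Group Γ] in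
theorem notMem_before (τ : Γ → unitInterval) (i : Γ) (F : Finset Γ) : i ∉ before τ i F := by
  simp [before]

/-- the decrease of the conditional entropy when the label at `i` is revealed -/
noncomputable def inc (lam : Measure E) [IsProbabilityMeasure lam] (q : E → Q)
    (X : (Γ → E) → α) (F : Finset Γ) (τ : Γ → unitInterval) (i : Γ) : ℝ :=
  hh lam q X (before τ i F) - hh lam q X (insert i (before τ i F))

omit [Group Γ] in
theorem inc_nonneg (hq : MF q) {X : (Γ → E) → α} (hX : MF X) (F : Finset Γ)
    (τ : Γ → unitInterval) (i : Γ) : 0 ≤ inc lam q X F τ i := by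
  unfold inc
  have := hh_insert_le (lam := lam) hq hX (notMem_before τ i F)
  linarith

omit [Group Γ] in
/-- telescoping -/
theorem inc_sum (lam : Measure E) [IsProbabilityMeasure lam] (q : E → Q) (X : (Γ → E) → α)
    (F : Finset Γ) (τ : Γ → unitInterval) (hτ : Set.InjOn τ F) :
    ∑ i ∈ F, inc lam q X F τ i = hh lam q X ∅ - hh lam q X F := by
  revert hτ
  induction F using Finset.induction_on_max_value τ with
  | empty => intro _; simp
  | insert a s ha hmax ih =>
    intro hτ
    have hs : Set.InjOn τ s := hτ.mono (by simp)
    have hlt : ∀ x ∈ s, τ x < τ a := by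
      intro x hx
      refine lt_of_le_of_ne (hmax x hx) ?_
      intro h
      have := hτ (by simp [hx]) (by simp) h
      exact ha (this ▸ hx)
    rw [Finset.sum_insert ha]
    have h1 : inc lam q X (insert a s) τ a = hh lam q X s - hh lam q X (insert a s) := by
      have : before τ a (insert a s) = s := by
        unfold before
        ext x
        simp only [Finset.mem_filter, Finset.mem_insert]
        constructor
        · rintro ⟨rfl | h, h2⟩
          · exact absurd h2 (lt_irrefl _)
          · exact h
        · intro h
          exact ⟨Or.inr h, hlt x h⟩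
      unfold inc
      rw [this]
    have h2 : ∑ i ∈ s, inc lam q X (insert a s) τ i = ∑ i ∈ s, inc lam q X s τ i := by
      refine Finset.sum_congr rfl fun i hi => ?_
      have : before τ i (insert a s) = before τ i s := by
        unfold before
        ext x
        simp only [Finset.mem_filter, Finset.mem_insert]
        constructor
        · rintro ⟨rfl | h, h2⟩
          · exact absurd h2 (not_lt.2 (hlt i hi).le)
          · exact ⟨h, h2⟩
        · rintro ⟨h, h2⟩
          exact ⟨Or.inr h, h2⟩
      unfold inc
      rw [this]
    rw [h1, h2, ih hs]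
    ring

omit [Group Γ] in
/-- labels outside the window bring nothing -/
theorem inc_dummy (hq : MF q) {X : (Γ → E) → α} {F : Finset Γ} (hX : Dep q X F)
    (τ : Γ → unitInterval) {i : Γ} (hi : i ∉ F) : inc lam q X F τ i = 0 := by
  unfold inc
  rw [hh_inter (lam := lam) hq hX (before τ i F), hh_inter (lam := lam) hq hX (insert i _),
    Finset.insert_inter_of_notMem hi]
  ring

omit [Group Γ] in
/-- the window may be enlarged -/
theorem inc_mono (hq : MF q) {X : (Γ → E) → α} {F F' : Finset Γ} (hX : Dep q X F)
    (hF : F ⊆ F') (τ : Γ → unitInterval) (i : Γ) :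
    inc lam q X F' τ i = inc lam q X F τ i := by
  have hb : before τ i F' ∩ F = before τ i F := by
    unfold before
    ext x
    simp only [Finset.mem_inter, Finset.mem_filter]
    constructor
    · rintro ⟨⟨h1, h2⟩, h3⟩; exact ⟨h3, h2⟩
    · rintro ⟨h1, h2⟩; exact ⟨⟨hF h1, h2⟩, h1⟩
  have hb' : before τ i F ∩ F = before τ i F :=
    Finset.inter_eq_left.2 (Finset.filter_subset _ _)
  unfold inc
  rw [hh_inter (lam := lam) hq hX (before τ i F'), hh_inter (lam := lam) hq hX (insert i _), hb]
  by_cases hi : i ∈ F
  · rw [Finset.insert_inter_of_mem hi, hb]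
  · rw [Finset.insert_inter_of_notMem hi, hb, hh_inter (lam := lam) hq hX (insert i _),
      Finset.insert_inter_of_notMem hi, hb']

omit [Group Γ] in
theorem inc_data (hq : MF q) {Y : (Γ → E) → β} (hY : MF Y) (φ : β → α) (F : Finset Γ)
    (τ : Γ → unitInterval) (i : Γ) :
    inc lam q (fun x => φ (Y x)) F τ i ≤ inc lam q Y F τ i := by
  unfold inc
  exact hh_data hq hY φ (notMem_before τ i F)

theorem inc_tr (hq : MF q) {X : (Γ → E) → α} (hX : MF X) (F : Finset Γ) (τ : Γ → unitInterval)
    (i g : Γ) :
    inc lam q (fun x => X (tr g x)) (F.image (· * g)) τ (i * g) = inc lam q X F (tr g τ) i := by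
  have hb : before τ (i * g) (F.image (· * g)) = (before (tr g τ) i F).image (· * g) := by
    unfold before tr
    ext x
    simp only [Finset.mem_filter, Finset.mem_image]
    constructor
    · rintro ⟨⟨a, ha, rfl⟩, h⟩
      exact ⟨a, ⟨ha, h⟩, rfl⟩
    · rintro ⟨a, ⟨ha, h⟩, rfl⟩
      exact ⟨⟨a, ha, rfl⟩, h⟩
  unfold inc
  rw [hb]
  have h1 : insert (i * g) ((before (tr g τ) i F).image (· * g)) =
      (insert i (before (tr g τ) i F)).image (· * g) := by
    rw [Finset.image_insert]
  rw [h1, hh_tr hq hX, hh_tr hq hX]

omit [Group Γ] in
theorem measurable_before [Countable Γ] (i : Γ) (F : Finset Γ) (G : Finset Γ → ℝ) :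
    Measurable (fun τ : Γ → unitInterval => G (before τ i F)) := by
  letI : MeasurableSpace (Finset Γ) := ⊤
  have h1 : Measurable (fun τ : Γ → unitInterval => before τ i F) := by
    refine measurable_to_countable' ?_
    intro B
    have : (fun τ : Γ → unitInterval => before τ i F) ⁻¹' {B} =
        if B ⊆ F then ⋂ j ∈ F, {τ : Γ → unitInterval | τ j < τ i ↔ j ∈ B} else ∅ := by
      ext τ
      split_ifs with hB
      · simp only [Set.mem_preimage, Set.mem_singleton_iff, Set.mem_iInter, Set.mem_ofPred_eq]
        constructor
        · rintro rfl j hj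
          simp [before, hj]
        · intro h
          ext j
          simp only [before, Finset.mem_filter]
          constructor
          · rintro ⟨h1, h2⟩; exact (h j h1).1 h2
          · intro h1; exact ⟨hB h1, (h j (hB h1)).2 h1⟩
      · simp only [Set.mem_preimage, Set.mem_singleton_iff, Set.mem_empty_iff_false, iff_false]
        rintro rfl
        exact hB (Finset.filter_subset _ _)
    rw [this]
    split_ifs with hB
    · refine Finset.measurableSet_biInter _ fun j _ => ?_
      by_cases hj : j ∈ B
      · have : {τ : Γ → unitInterval | τ j < τ i ↔ j ∈ B} = {τ | τ j < τ i} := by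
          ext τ; simp [hj]
        rw [this]
        exact measurableSet_lt (measurable_pi_apply j) (measurable_pi_apply i)
      · have : {τ : Γ → unitInterval | τ j < τ i ↔ j ∈ B} = {τ | τ i ≤ τ j} := by
          ext τ; simp [hj]
        rw [this]
        exact measurableSet_le (measurable_pi_apply i) (measurable_pi_apply j)
    · exact MeasurableSet.empty
  have h2 : Measurable G := fun s _ => trivial
  exact h2.comp h1

omit [Group Γ] in
theorem measurable_inc [Countable Γ] (lam : Measure E) [IsProbabilityMeasure lam] (q : E → Q)
    (X : (Γ → E) → α) (F : Finset Γ) (i : Γ) :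
    Measurable (fun τ : Γ → unitInterval => inc lam q X F τ i) :=
  measurable_before i F (fun B => hh lam q X B - hh lam q X (insert i B))

/-- the law of the random order -/
noncomputable abbrev nu (Γ : Type) : Measure (Γ → unitInterval) := bern Γ volume

omit [Group Γ] in
theorem ae_injOn (F : Finset Γ) : ∀ᵐ τ ∂(nu Γ), Set.InjOn τ F := by
  have h1 : ∀ i j : Γ, i ≠ j → ∀ᵐ τ ∂(nu Γ), τ i ≠ τ j := by
    intro i j hij
    have h := Measure.infinitePi_map_eval_prod (P := fun _ : Γ => (volume : Measure unitInterval))
      hij
    have hmeas : Measurable (fun τ : Γ → unitInterval => (τ i, τ j)) := by fun_prop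
    have hD : MeasurableSet {p : unitInterval × unitInterval | p.1 = p.2} :=
      measurableSet_eq_fun measurable_fst measurable_snd
    have h2 : ((volume : Measure unitInterval).prod volume)
        {p : unitInterval × unitInterval | p.1 = p.2} = 0 := by
      rw [Measure.prod_apply hD]
      have : ∀ x : unitInterval, volume (Prod.mk x ⁻¹' {p : unitInterval × unitInterval |
          p.1 = p.2}) = 0 := by
        intro x
        have e : Prod.mk x ⁻¹' {p : unitInterval × unitInterval | p.1 = p.2} = {x} := by
          ext y; simp [eq_comm]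
        rw [e]
        exact measure_singleton x
      simp [this]
    rw [← h, Measure.map_apply hmeas hD] at h2
    rw [ae_iff]
    have e : {τ : Γ → unitInterval | ¬ τ i ≠ τ j} =
        (fun τ : Γ → unitInterval => (τ i, τ j)) ⁻¹' {p : unitInterval × unitInterval |
          p.1 = p.2} := by
      ext τ
      simp only [ne_eq, not_not, Set.mem_ofPred_eq, Set.mem_preimage]
    rw [e]
    exact h2
  have h2 : ∀ᵐ τ ∂(nu Γ), ∀ i ∈ F, ∀ j ∈ F, i ≠ j → τ i ≠ τ j := by
    rw [Finset.eventually_all]
    intro i _
    rw [Finset.eventually_all]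
    intro j _
    by_cases hij : i = j
    · exact Filter.Eventually.of_forall fun τ h => absurd hij h
    · filter_upwards [h1 i j hij] with τ h _ using h
  filter_upwards [h2] with τ h
  intro i hi j hj hij
  by_contra hne
  exact h i hi j hj hne hij

end Pool.Agent.T6.H59.FI
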