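import Pool.Agent.T6.H59.FI.Ent

/-!
# Conditional entropy given finitely many labels
-/

set_option autoImplicit false

namespace Pool.Agent.T6.H59.FI

open MeasureTheory Measure Classical

variable {Γ : Type} [Group Γ] {E Q : Type} [MeasurableSpace E] [Fintype Q]
  (lam : Measure E) [IsProbabilityMeasure lam] (q : E → Q)

omit [Group Γ] in
/-- the classes of the labels in a finite set -/
def zeta (U : Finset Γ) (x : Γ → E) : U → Q := fun u => q (x u)

/-- conditional entropy given the labels in `U` (for identically distributed labels) -/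
noncomputable def hh {α : Type} [Fintype α] (X : (Γ → E) → α) (U : Finset Γ) : ℝ :=
  Hm (bern Γ lam) (fun x => (X x, zeta q U x)) - U.card * Hm lam q

/-- `X` is a function of the labels in `F` -/
def Dep {α : Type} (X : (Γ → E) → α) (F : Finset Γ) : Prop := ∃ φ : (F → Q) → α, ∀ x, X x = φ (zeta q F x)

variable {lam q}

omit [Group Γ] [Fintype Q] in
theorem mf_zeta (hq : MF q) (U : Finset Γ) : MF (zeta (Γ := Γ) q U) := by
  intro b
  have : (zeta q U) ⁻¹' {b} = ⋂ u : U, (fun x : Γ → E => x u) ⁻¹' (q ⁻¹' {b u}) := by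
    ext x
    simp only [Set.mem_preimage, Set.mem_singleton_iff, Set.mem_iInter]
    constructor
    · intro h u
      rw [← h]; rfl
    · intro h
      funext u
      exact h u
  rw [this]
  exact MeasurableSet.iInter (fun u => measurable_pi_apply _ (hq _))

omit [Group Γ] [Fintype Q] in
theorem Dep.mono {α : Type} {X : (Γ → E) → α} {F F' : Finset Γ} (h : Dep q X F) (hF : F ⊆ F') :
    Dep q X F' := by
  obtain ⟨φ, hφ⟩ := h
  exact ⟨fun z => φ (fun u => z ⟨u.1, hF u.2⟩), hφ⟩

omit [Group Γ] in
theorem Dep.mf {α : Type} {X : (Γ → E) → α} {F : Finset Γ} (h : Dep q X F) (hq : MF q) : MF X := by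
  obtain ⟨φ, hφ⟩ := h
  have : X = fun x => φ (zeta q F x) := funext hφ
  rw [this]
  exact (mf_zeta hq F).comp φ

omit [Group Γ] [Fintype Q] in
/-- independence of the labels in disjoint sets -/
theorem indep_zeta (hq : MF q) [Fintype Q] {U V : Finset Γ} (hUV : Disjoint U V)
    (s : Set (U → Q)) (t : Set (V → Q)) :
    (bern Γ lam).real (zeta q U ⁻¹' s ∩ zeta q V ⁻¹' t) =
      (bern Γ lam).real (zeta q U ⁻¹' s) * (bern Γ lam).real (zeta q V ⁻¹' t) := by
  have h1 : ProbabilityTheory.iIndepFun (fun (i : Γ) (x : Γ → E) => x i) (bern Γ lam) := by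
    have := ProbabilityTheory.iIndepFun_infinitePi (P := fun _ : Γ => lam)
      (X := fun _ (e : E) => e) (fun _ => measurable_id)
    exact this
  have h2 := h1.indepFun_finset U V hUV (fun i => measurable_pi_apply i)
  have hs : ∀ (W : Finset Γ) (s : Set (W → Q)),
      MeasurableSet {y : W → E | (fun u => q (y u)) ∈ s} := by
    intro W s
    have : {y : W → E | (fun u => q (y u)) ∈ s} =
        ⋃ b ∈ s, ⋂ u : W, (fun y : W → E => y u) ⁻¹' (q ⁻¹' {b u}) := by
      ext y
      simp only [Set.mem_ofPred_eq, Set.mem_iUnion, Set.mem_iInter, Set.mem_preimage,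
        Set.mem_singleton_iff, exists_prop]
      constructor
      · intro h
        exact ⟨_, h, fun u => rfl⟩
      · rintro ⟨b, hb, h⟩
        have : (fun u => q (y u)) = b := funext h
        rw [this]; exact hb
    rw [this]
    exact MeasurableSet.biUnion (Set.to_countable _)
      (fun b _ => MeasurableSet.iInter (fun u => measurable_pi_apply _ (hq _)))
  have h3 := h2.measure_inter_preimage_eq_mul _ _ (hs U s) (hs V t)
  have e1 : (fun (a : Γ → E) (i : U) => a i) ⁻¹' {y : U → E | (fun u => q (y u)) ∈ s} =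
      zeta q U ⁻¹' s := rfl
  have e2 : (fun (a : Γ → E) (i : V) => a i) ⁻¹' {y : V → E | (fun u => q (y u)) ∈ t} =
      zeta q V ⁻¹' t := rfl
  rw [e1, e2] at h3
  rw [measureReal_def, h3, ENNReal.toReal_mul]
  rfl

omit [Group Γ] in
theorem Hm_indep_zeta (hq : MF q) {α : Type} [Fintype α] {W : (Γ → E) → α} {U V : Finset Γ}
    (hW : Dep q W U) (hUV : Disjoint U V) :
    Hm (bern Γ lam) (fun x => (W x, zeta q V x)) =
      Hm (bern Γ lam) W + Hm (bern Γ lam) (zeta q V) := by
  refine Hm_indep (hW.mf hq) (mf_zeta hq V) ?_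
  intro a b
  obtain ⟨φ, hφ⟩ := hW
  have : W ⁻¹' {a} = zeta q U ⁻¹' (φ ⁻¹' {a}) := by
    ext x
    simp only [Set.mem_preimage, Set.mem_singleton_iff, hφ x]
  rw [this]
  exact indep_zeta hq hUV _ _

omit [Group Γ] in
/-- the entropy of one label -/
theorem Hm_one (hq : MF q) (i : Γ) : Hm (bern Γ lam) (fun x => q (x i)) = Hm lam q := by
  have : MeasurePreserving (fun x : Γ → E => x i) (bern Γ lam) lam :=
    measurePreserving_eval_infinitePi (fun _ : Γ => lam) i
  exact Hm_map this hq

omit [Group Γ] in
/-- splitting off one label -/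
theorem Hm_insert (hq : MF q) {α : Type} [Fintype α] {X : (Γ → E) → α} (hX : MF X)
    {U : Finset Γ} {i : Γ} (hi : i ∉ U) :
    Hm (bern Γ lam) (fun x => (X x, zeta q (insert i U) x)) =
      Hm (bern Γ lam) (fun x => ((X x, zeta q U x), q (x i))) := by
  have hqi : MF (fun x : Γ → E => q (x i)) := hq.comp_meas (measurable_pi_apply i)
  refine Hm_eq (hX.pair (mf_zeta hq _)) ((hX.pair (mf_zeta hq _)).pair hqi)
    (fun p => ((p.1, fun u => p.2 ⟨u.1, Finset.mem_insert_of_mem u.2⟩),
      p.2 ⟨i, Finset.mem_insert_self _ _⟩))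
    (fun p => (p.1.1, fun u => if h : u.1 ∈ U then p.1.2 ⟨u.1, h⟩ else p.2)) (fun x => rfl) ?_
  intro x
  simp only [Prod.mk.injEq, true_and]
  funext u
  by_cases h : u.1 ∈ U
  · simp only [h, dif_pos]; rfl
  · simp only [h, dif_neg, not_false_eq_true]
    have : u.1 = i := by
      rcases Finset.mem_insert.1 u.2 with h' | h'
      · exact h'
      · exact absurd h' h
    show q (x i) = q (x u)
    rw [this]

omit [Group Γ] in
theorem Hm_zeta (hq : MF q) (U : Finset Γ) :
    Hm (bern Γ lam) (zeta q U) = U.card * Hm lam q := by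
  have key : ∀ U : Finset Γ, Hm (bern Γ lam) (fun x => ((), zeta q U x)) = U.card * Hm lam q := by
    intro U
    induction U using Finset.induction_on with
    | empty =>
      have h : (fun x : Γ → E => ((), zeta q ∅ x)) = fun _ => ((), fun u => (Finset.notMem_empty _ u.2).elim) := by
        funext x
        congr
        funext u
        exact (Finset.notMem_empty _ u.2).elim
      rw [h]
      have hc : MF (fun _ : Γ → E => ()) := fun a => by
        have : (fun _ : Γ → E => ()) ⁻¹' {a} = Set.univ := by ext; simp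
        rw [this]; exact MeasurableSet.univ
      have h0 := Hm_comp (P := bern Γ lam) hc
        (fun _ => ((), (fun u => (Finset.notMem_empty _ u.2).elim : (∅ : Finset Γ) → Q)))
      rw [h0]
      have h1 := H137.PFR.H_comp_le (law_lw (P := bern Γ lam) hc) (fun a => a)
        (fun _ => ((), (fun u => (Finset.notMem_empty _ u.2).elim : (∅ : Finset Γ) → Q)))
      have h2 := H137.PFR.H_nonneg (law_lw (P := bern Γ lam) hc)
        (fun _ => ((), (fun u => (Finset.notMem_empty _ u.2).elim : (∅ : Finset Γ) → Q)))
      have h3 := H137.PFR.H_unit (law_lw (P := bern Γ lam) hc)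
      have h4 : H137.PFR.H (lw (bern Γ lam) (fun _ : Γ → E => ())) (fun a => a) = 0 := h3
      simp only [Finset.card_empty, Nat.cast_zero, zero_mul]
      linarith
    | insert i U hi ih =>
      have hc : MF (fun _ : Γ → E => ()) := fun a => by
        have : (fun _ : Γ → E => ()) ⁻¹' {a} = Set.univ := by ext; simp
        rw [this]; exact MeasurableSet.univ
      rw [Hm_insert hq hc hi, Finset.card_insert_of_notMem hi]
      have hdep : Dep q (fun x : Γ → E => ((), zeta q U x)) U := ⟨fun z => ((), z), fun x => rfl⟩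
      have h1 := Hm_indep_zeta (lam := lam) hq hdep (V := {i})
        (by rw [Finset.disjoint_singleton_right]; exact hi)
      have hqi : MF (fun x : Γ → E => q (x i)) := hq.comp_meas (measurable_pi_apply i)
      have h2 : Hm (bern Γ lam) (zeta q {i}) = Hm (bern Γ lam) (fun x : Γ → E => q (x i)) :=
        Hm_eq (mf_zeta hq _) hqi (fun z => z ⟨i, Finset.mem_singleton_self i⟩)
          (fun a _ => a) (fun x => rfl) (fun x => by
            funext u
            have := Finset.mem_singleton.1 u.2
            show q (x i) = q (x u)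
            rw [this])
      have h3 : Hm (bern Γ lam) (fun x : Γ → E => (((), zeta q U x), zeta q {i} x)) =
          Hm (bern Γ lam) (fun x : Γ → E => (((), zeta q U x), q (x i))) :=
        Hm_eq (((hc.pair (mf_zeta hq _))).pair (mf_zeta hq _)) ((hc.pair (mf_zeta hq _)).pair hqi)
          (fun z => (z.1, z.2 ⟨i, Finset.mem_singleton_self i⟩))
          (fun z => (z.1, fun _ => z.2)) (fun x => rfl) (fun x => by
            simp only [Prod.mk.injEq, true_and]
            funext u
            have := Finset.mem_singleton.1 u.2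
            show q (x i) = q (x u)
            rw [this])
      rw [← h3, h1, h2, Hm_one hq, ih]
      push_cast
      ring
  rw [← key U]
  refine Hm_eq (mf_zeta hq _) (MF.pair ?_ (mf_zeta hq _)) (fun z => ((), z)) (fun z => z.2)
    (fun x => rfl) (fun x => rfl)
  intro a
  have : (fun _ : Γ → E => ()) ⁻¹' {a} = Set.univ := by ext; simp
  rw [this]; exact MeasurableSet.univ

end Pool.Agent.T6.H59.FI
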