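import Pool.Agent.T6.H59.FI.Order

/-!
# The star inequality for factors of i.i.d. with finite windows
-/

set_option autoImplicit false

namespace Pool.Agent.T6.H59.FI

open MeasureTheory Measure Classical

variable {Γ : Type} [Group Γ] [Countable Γ] {E Q : Type} [MeasurableSpace E] [Fintype Q]
  {lam : Measure E} [IsProbabilityMeasure lam] {q : E → Q} {α β : Type} [Fintype α] [Fintype β]

/-- the contribution of the label at `1` to the entropy at `g` -/
noncomputable def bb (lam : Measure E) [IsProbabilityMeasure lam] (q : E → Q)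
    (X : (Γ → E) → α) (F : Finset Γ) (g : Γ) : ENNReal :=
  ∫⁻ τ, ENNReal.ofReal (inc lam q (fun x => X (tr g x)) (F.image (· * g)) τ 1) ∂(nu Γ)

/-- the entropy is the sum of the contributions -/
theorem ent_eq_sum (hq : MF q) {X : (Γ → E) → α} {F : Finset Γ} (hX : Dep q X F) :
    ENNReal.ofReal (Hm (bern Γ lam) X) = ∑ i ∈ F, bb lam q X F i⁻¹ := by
  have hm := hX.mf hq
  have h1 : ∀ i, bb lam q X F i⁻¹ = ∫⁻ τ, ENNReal.ofReal (inc lam q X F τ i) ∂(nu Γ) := by
    intro i
    unfold bb
    have h2 : ∀ τ : Γ → unitInterval,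
        inc lam q (fun x => X (tr i⁻¹ x)) (F.image (· * i⁻¹)) τ 1 =
          inc lam q X F (tr i⁻¹ τ) i := by
      intro τ
      have := inc_tr (lam := lam) hq hm F τ i i⁻¹
      rwa [mul_inv_cancel] at this
    simp only [h2]
    exact (mp_tr (E := unitInterval) (lam := volume) i⁻¹).lintegral_comp
      (f := fun τ => ENNReal.ofReal (inc lam q X F τ i)) (measurable_inc lam q X F i).ennreal_ofReal
  simp only [h1]
  rw [← lintegral_finset_sum _ (fun i _ => (measurable_inc lam q X F i).ennreal_ofReal)]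
  have h3 : ∀ᵐ τ ∂(nu Γ), ∑ i ∈ F, ENNReal.ofReal (inc lam q X F τ i) =
      ENNReal.ofReal (Hm (bern Γ lam) X) := by
    filter_upwards [ae_injOn F] with τ hτ
    rw [← ENNReal.ofReal_sum_of_nonneg (fun i _ => inc_nonneg hq hm F τ i),
      inc_sum lam q X F τ hτ, hh_self hq hX, hh_empty hq hm, sub_zero]
  rw [lintegral_congr_ae h3, lintegral_const, measure_univ, mul_one]

variable {ι : Type} [Fintype ι]

/-- the values at the neighbours -/
def star (T : Tree Γ ι) (X : (Γ → E) → α) (x : Γ → E) : ι → α := fun i => X (tr (T.s i) x)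

omit [Countable Γ] in
theorem dep_star {T : Tree Γ ι} {X : (Γ → E) → α} {F : Finset Γ} (hX : Dep q X F) :
    Dep q (star T X) (Finset.univ.biUnion (fun i => F.image (· * T.s i))) := by
  have h : ∀ i, Dep q (fun x => X (tr (T.s i) x))
      (Finset.univ.biUnion (fun i => F.image (· * T.s i))) := fun i =>
    (hX.tr (T.s i)).mono (Finset.subset_biUnion_of_mem (fun i => F.image (· * T.s i))
      (Finset.mem_univ i))
  choose φ hφ using h
  exact ⟨fun z i => φ i z, fun x => funext fun i => hφ i x⟩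

omit [Countable Γ] [MeasurableSpace E] [Group Γ] in
theorem tr_tr' [Group Γ] (g h : Γ) (x : Γ → E) : tr g (tr h x) = tr (g * h) x := by
  funext v
  simp [tr, mul_assoc]

/-- the contribution to the star at `g` is at least the contribution to each of its points -/
theorem bb_le (hq : MF q) (T : Tree Γ ι) {X : (Γ → E) → α} {F : Finset Γ} (hX : Dep q X F)
    (k : ι) (g : Γ) :
    bb lam q X F (T.s k * g) ≤
      bb lam q (star T X) (Finset.univ.biUnion (fun i => F.image (· * T.s i))) g := by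
  set F' := Finset.univ.biUnion (fun i => F.image (· * T.s i)) with hF'
  unfold bb
  refine lintegral_mono fun τ => ENNReal.ofReal_le_ofReal ?_
  have hY : Dep q (fun x => star T X (tr g x)) (F'.image (· * g)) := (dep_star hX).tr g
  have hX' : Dep q (fun x => X (tr (T.s k * g) x)) (F.image (· * (T.s k * g))) := hX.tr _
  have hsub : F.image (· * (T.s k * g)) ⊆ F'.image (· * g) := by
    intro x hx
    obtain ⟨a, ha, rfl⟩ := Finset.mem_image.1 hx
    refine Finset.mem_image.2 ⟨a * T.s k, ?_, by simp [mul_assoc]⟩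
    rw [hF']
    exact Finset.mem_biUnion.2 ⟨k, Finset.mem_univ _, Finset.mem_image_of_mem _ ha⟩
  rw [← inc_mono (lam := lam) hq hX' hsub τ 1]
  have e : (fun x => X (tr (T.s k * g) x)) = fun x => (star T X (tr g x)) k := by
    funext x
    simp only [star, tr_tr']
  rw [e]
  exact inc_data hq (hY.mf hq) (fun z => z k) _ τ 1

/-- **The star inequality.** -/
theorem star_ineq (hq : MF q) (T : Tree Γ ι) {X : (Γ → E) → α} {F : Finset Γ}
    (hX : Dep q X F) :
    ((Fintype.card ι - 1 : ℕ) : ENNReal) * ENNReal.ofReal (Hm (bern Γ lam) X) ≤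
      ENNReal.ofReal (Hm (bern Γ lam) (star T X)) := by
  set F' := Finset.univ.biUnion (fun i => F.image (· * T.s i)) with hF'
  have hY : Dep q (star T X) F' := dep_star hX
  rw [ent_eq_sum hq hX, ent_eq_sum hq hY, Finset.mul_sum]
  -- lower bound by the children
  have h1 : ∑ i ∈ F, ((Fintype.card ι - 1 : ℕ) : ENNReal) * bb lam q X F i⁻¹ ≤
      ∑ i ∈ F, ∑ k ∈ T.ch i⁻¹, bb lam q (star T X) F' (T.s k * i⁻¹) := by
    refine Finset.sum_le_sum fun i _ => ?_
    have h2 : ∀ k ∈ T.ch i⁻¹, bb lam q X F i⁻¹ ≤ bb lam q (star T X) F' (T.s k * i⁻¹) := by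
      intro k _
      obtain ⟨j, hj⟩ := T.inv k
      have := bb_le (lam := lam) hq T hX j (T.s k * i⁻¹)
      rwa [hj, inv_mul_cancel_left] at this
    refine le_trans ?_ (Finset.sum_le_sum h2)
    rw [Finset.sum_const, nsmul_eq_mul]
    refine mul_le_mul_left ?_ _
    have := T.card_ch i⁻¹
    exact_mod_cast (by omega : Fintype.card ι - 1 ≤ (T.ch i⁻¹).card)
  refine le_trans h1 ?_
  -- the children are distinct elements of `F'⁻¹`
  rw [Finset.sum_sigma']
  have h3 : ∑ p ∈ F.sigma (fun i => T.ch i⁻¹), bb lam q (star T X) F' (T.s p.2 * p.1⁻¹) =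
      ∑ g ∈ (F.sigma (fun i => T.ch i⁻¹)).image (fun p => (T.s p.2 * p.1⁻¹)⁻¹),
        bb lam q (star T X) F' g⁻¹ := by
    rw [Finset.sum_image]
    · refine Finset.sum_congr rfl fun p _ => by rw [inv_inv]
    · rintro ⟨i, k⟩ hp ⟨i', k'⟩ hp' h
      simp only [Finset.coe_sigma, Set.mem_sigma_iff, Finset.mem_coe] at hp hp'
      simp only [inv_inj] at h
      obtain ⟨h4, h5⟩ := T.inj _ _ _ _ hp.2 hp'.2 h
      rw [inv_inj] at h4
      subst h4; subst h5; rfl
  rw [h3]
  refine Finset.sum_le_sum_of_subset ?_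
  intro g hg
  obtain ⟨⟨i, k⟩, hp, rfl⟩ := Finset.mem_image.1 hg
  rw [Finset.mem_sigma] at hp
  obtain ⟨j, hj⟩ := T.inv k
  rw [hF']
  refine Finset.mem_biUnion.2 ⟨j, Finset.mem_univ _, Finset.mem_image.2 ⟨i, hp.1, ?_⟩⟩
  simp only [hj, mul_inv_rev, inv_inv]

end Pool.Agent.T6.H59.FI
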