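import Pool.Agent.T6.H59.FI.Approx

/-!
# No factor of i.i.d. has infinitely many levels
-/

set_option autoImplicit false

namespace Pool.Agent.T6.H59.FI

open MeasureTheory Measure Classical MeasurableSpace

variable {Γ : Type} [Group Γ] [Countable Γ] {E : Type} [MeasurableSpace E] [CountablyGenerated E]
  {ι : Type} [Fintype ι] {lam : Measure E} [IsProbabilityMeasure lam]

theorem measurable_at' [Countable Γ] (t : ℝ) : Measurable (at' (Γ := Γ) (E := E) t) := by
  refine measurable_pi_lambda _ fun v => ?_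
  unfold at'
  refine Measurable.ite ?_ ?_ ?_
  · exact measurableSet_lt (by fun_prop) measurable_const
  · fun_prop
  · fun_prop

/-- one level -/
theorem level (hANAL : ∃ p₀ : ℝ, 0 < p₀ ∧ p₀ ≤ 1 / 2 ∧ ∀ p N : ℝ, 0 ≤ p →
      p ≤ p₀ → 0 ≤ N → N ≤ 1 →
      ((Fintype.card ι : ℝ) - 1) * Real.binEntropy p ≤
        Real.binEntropy N + N * (Fintype.card ι * Real.log 2) →
      ((Fintype.card ι : ℝ) - 5 / 4) * p ≤ N) (hAT : StmAT) (hcard : 4 ≤ Fintype.card ι)
    (T : Tree Γ ι) :
    ∃ p₀ : ℝ, 0 < p₀ ∧ ∀ f g : (Γ → E) → ZMod 2, Measurable f → Measurable g →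
      (∀ᵐ x ∂(bern Γ lam), f x = ∑ i, g (tr (T.s i) x)) → ∀ t : ℝ,
      sens lam g t ≤ p₀ → 3 / 2 * sens lam g t ≤ sens lam f t := by
  obtain ⟨p₀, hp0, hp1, hp⟩ := hANAL
  refine ⟨p₀, hp0, ?_⟩
  intro f g hf hg hfg t ht
  set μ := bern Γ (lam3 lam) with hμ
  set A : Set (Γ → E3 E) := {x | g (at' 0 x) ≠ g (at' t x)} with hA
  set B : Set (Γ → E3 E) := {x | f (at' 0 x) ≠ f (at' t x)} with hB
  have hAm : MeasurableSet A := (measurableSet_eq_fun (hg.comp (measurable_at' 0))
    (hg.comp (measurable_at' t))).compl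
  have hBm : MeasurableSet B := (measurableSet_eq_fun (hf.comp (measurable_at' 0))
    (hf.comp (measurable_at' t))).compl
  have hsA : sens lam g t = μ.real A := rfl
  have hsB : sens lam f t = μ.real B := rfl
  have hsse := stmSSE Γ ι (E3 E) (lam3 lam) T A hAm
  rw [← hμ] at hsse
  set N := μ.real (⋃ i, tr (T.s i) ⁻¹' A) with hN
  have hN1 := hp (μ.real A) N measureReal_nonneg (hsA ▸ ht) measureReal_nonneg
    measureReal_le_one hsse
  -- counting
  have hmp : ∀ i, MeasurePreserving (tr (E := E3 E) (T.s i)) μ μ := fun i => mp_tr _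
  have hcomm : ∀ (s : ℝ) (i : ι) (x : Γ → E3 E), tr (T.s i) (at' s x) = at' s (tr (T.s i) x) :=
    fun s i x => rfl
  have hae : ∀ s : ℝ, ∀ᵐ x ∂μ, f (at' s x) = ∑ i, g (at' s (tr (T.s i) x)) := by
    intro s
    have := (hAT Γ E lam s).quasiMeasurePreserving.ae hfg
    filter_upwards [this] with x hx
    rw [hx]
    rfl
  -- the pointwise inequality
  have hpt : ∀ᵐ x ∂μ, 2 * (⋃ i, tr (T.s i) ⁻¹' A).indicator (fun _ => (1 : ℝ)) x ≤
      B.indicator (fun _ => (1 : ℝ)) x +
        ∑ i, (tr (T.s i) ⁻¹' A).indicator (fun _ => (1 : ℝ)) x := by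
    filter_upwards [hae 0, hae t] with x h0 h1
    set S := Finset.univ.filter (fun i => x ∈ tr (T.s i) ⁻¹' A) with hS
    have hsum : ∑ i, (tr (T.s i) ⁻¹' A).indicator (fun _ => (1 : ℝ)) x = S.card := by
      simp only [Set.indicator_apply]
      rw [Finset.sum_ite, Finset.sum_const, Finset.sum_const_zero, add_zero, nsmul_eq_mul, mul_one]
    rw [hsum]
    have hBnn : 0 ≤ B.indicator (fun _ => (1 : ℝ)) x := Set.indicator_nonneg (fun _ _ => zero_le_one) x
    rcases Nat.lt_trichotomy S.card 1 with hc | hc | hc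
    · -- no neighbour
      have hS0 : S = ∅ := Finset.card_eq_zero.1 (by omega)
      have : x ∉ ⋃ i, tr (T.s i) ⁻¹' A := by
        intro hx
        obtain ⟨i, hi⟩ := Set.mem_iUnion.1 hx
        have : i ∈ S := by simp only [hS, Finset.mem_filter, Finset.mem_univ, true_and]; exact hi
        rw [hS0] at this
        exact absurd this (Finset.notMem_empty _)
      rw [Set.indicator_of_notMem this, hS0]
      simpa using hBnn
    · -- exactly one neighbour
      obtain ⟨i, hi⟩ := Finset.card_eq_one.1 hc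
      have hxB : x ∈ B := by
        show f (at' 0 x) ≠ f (at' t x)
        rw [h0, h1]
        intro heq
        have h2 : ∑ j, (g (at' 0 (tr (T.s j) x)) - g (at' t (tr (T.s j) x))) = 0 := by
          rw [Finset.sum_sub_distrib, heq, sub_self]
        rw [Finset.sum_eq_single i] at h2
        · have hiS : i ∈ S := by rw [hi]; exact Finset.mem_singleton_self i
          simp only [hS, Finset.mem_filter, Finset.mem_univ, true_and] at hiS
          exact hiS (sub_eq_zero.1 h2)
        · intro j _ hji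
          have : j ∉ S := by rw [hi]; simpa using hji
          simp only [hS, Finset.mem_filter, Finset.mem_univ, true_and] at this
          have h3 : ¬ (g (at' 0 (tr (T.s j) x)) ≠ g (at' t (tr (T.s j) x))) := this
          rw [not_not.1 h3, sub_self]
        · intro h; exact absurd (Finset.mem_univ i) h
      rw [Set.indicator_of_mem hxB, hc]
      have : (⋃ i, tr (T.s i) ⁻¹' A).indicator (fun _ => (1 : ℝ)) x ≤ 1 :=
        Set.indicator_le_self' (fun _ _ => zero_le_one) x
      push_cast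
      linarith
    · have : (⋃ i, tr (T.s i) ⁻¹' A).indicator (fun _ => (1 : ℝ)) x ≤ 1 :=
        Set.indicator_le_self' (fun _ _ => zero_le_one) x
      have h2 : (2 : ℝ) ≤ S.card := by exact_mod_cast hc
      linarith
  -- integrate
  have hUm : MeasurableSet (⋃ i, tr (T.s i) ⁻¹' A) :=
    MeasurableSet.iUnion fun i => (hmp i).measurable hAm
  have hint := integral_mono_ae (μ := μ)
    (((integrable_const (1 : ℝ)).indicator hUm).const_mul 2)
    (((integrable_const (1 : ℝ)).indicator hBm).add (integrable_finset_sum _ fun i _ =>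
      (integrable_const (1 : ℝ)).indicator ((hmp i).measurable hAm))) hpt
  simp only [Pi.add_apply] at hint
  rw [integral_const_mul, integral_add ((integrable_const (1 : ℝ)).indicator hBm)
    (integrable_finset_sum _ fun i _ =>
      (integrable_const (1 : ℝ)).indicator ((hmp i).measurable hAm)),
    integral_finset_sum _ (fun i _ =>
      (integrable_const (1 : ℝ)).indicator ((hmp i).measurable hAm))] at hint
  have hind : ∀ C : Set (Γ → E3 E), MeasurableSet C →
      ∫ x, C.indicator (fun _ => (1 : ℝ)) x ∂μ = μ.real C := by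
    intro C hC
    rw [integral_indicator hC, integral_const, smul_eq_mul, mul_one]
    simp [measureReal_def]
  rw [hind _ hUm, hind _ hBm] at hint
  have hsum : ∑ i, ∫ x, (tr (T.s i) ⁻¹' A).indicator (fun _ => (1 : ℝ)) x ∂μ =
      Fintype.card ι * μ.real A := by
    rw [Finset.sum_congr rfl (fun i _ => hind _ ((hmp i).measurable hAm))]
    have : ∀ i, μ.real (tr (T.s i) ⁻¹' A) = μ.real A := by
      intro i
      rw [measureReal_def, (hmp i).measure_preimage hAm.nullMeasurableSet]
      rfl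
    rw [Finset.sum_congr rfl (fun i _ => this i), Finset.sum_const, nsmul_eq_mul,
      Finset.card_univ]
  rw [hsum, ← hN] at hint
  rw [hsA, hsB]
  have hAnn : 0 ≤ μ.real A := measureReal_nonneg
  have hc4 : (4 : ℝ) ≤ Fintype.card ι := by exact_mod_cast hcard
  nlinarith

/-- **No infinite tower of factors of i.i.d.** -/
theorem no_tower (hANAL : StmANAL) (hNOISE : StmNOISE) (hAT : StmAT)
    (hcard : 4 ≤ Fintype.card ι) (T : Tree Γ ι) (f : ℕ → (Γ → E) → ZMod 2)
    (hf : ∀ n, Measurable (f n))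
    (hrel : ∀ n, ∀ᵐ x ∂(bern Γ lam), f n x = ∑ i, f (n + 1) (tr (T.s i) x))
    (hhalf : ∀ n, (bern Γ lam).real {x | f n x = 0} = 1 / 2) : False := by
  obtain ⟨p₀, hp0, hlev⟩ := level (E := E) (lam := lam) (hANAL (Fintype.card ι) hcard) hAT hcard T
  have hN := fun n => hNOISE Γ E lam (f n) (hf n)
  have hnn : ∀ n t, 0 ≤ sens lam (f n) t := fun n t => measureReal_nonneg
  -- a time at which level 0 is insensitive
  obtain ⟨t₀, ht0, ht1, hbd⟩ : ∃ t₀ : ℝ, 0 < t₀ ∧ t₀ ≤ 1 ∧
      ∀ t, 0 ≤ t → t ≤ t₀ → sens lam (f 0) t ≤ p₀ := by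
    have hc := (hN 0).2.1 0 ⟨le_refl _, zero_le_one⟩
    rw [Metric.continuousWithinAt_iff] at hc
    obtain ⟨δ, hδ, h⟩ := hc p₀ hp0
    refine ⟨min (δ / 2) 1, by positivity, min_le_right _ _, ?_⟩
    intro t h0 h1
    have h2 := h (x := t) ⟨h0, h1.trans (min_le_right _ _)⟩ (by
      rw [Real.dist_eq, sub_zero, abs_of_nonneg h0]
      have := h1.trans (min_le_left _ _)
      linarith)
    rw [(hN 0).1, Real.dist_eq, sub_zero] at h2
    exact (le_abs_self _).trans h2.le
  have key : ∀ n, ∀ t, 0 ≤ t → t ≤ t₀ → sens lam (f n) t ≤ (2 / 3) ^ n * p₀ := by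
    intro n
    induction n with
    | zero => intro t h0 h1; simpa using hbd t h0 h1
    | succ n ih =>
      have hle : ∀ s, 0 ≤ s → s ≤ t₀ → sens lam (f n) s ≤ p₀ := by
        intro s h0 h1
        refine (ih s h0 h1).trans ?_
        have : ((2 : ℝ) / 3) ^ n ≤ 1 := pow_le_one₀ (by norm_num) (by norm_num)
        nlinarith
      have hsmall : ∀ t, 0 ≤ t → t ≤ t₀ → sens lam (f (n + 1)) t ≤ p₀ := by
        intro t h0 h1
        by_contra hcon
        push Not at hcon
        have hsub : Set.Icc 0 t ⊆ Set.Icc (0 : ℝ) 1 := Set.Icc_subset_Icc le_rfl (h1.trans ht1)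
        have hiv := intermediate_value_Icc h0 ((hN (n + 1)).2.1.mono hsub)
        obtain ⟨s, hs, hsp⟩ := hiv (show p₀ ∈ Set.Icc (sens lam (f (n + 1)) 0)
          (sens lam (f (n + 1)) t) by rw [(hN (n + 1)).1]; exact ⟨hp0.le, hcon.le⟩)
        have h3 := hlev (f n) (f (n + 1)) (hf n) (hf (n + 1)) (hrel n) s hsp.le
        have h4 := hle s hs.1 (hs.2.trans h1)
        rw [hsp] at h3
        linarith
      intro t h0 h1
      have h3 := hlev (f n) (f (n + 1)) (hf n) (hf (n + 1)) (hrel n) t (hsmall t h0 h1)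
      have h4 := ih t h0 h1
      rw [pow_succ]
      nlinarith
  obtain ⟨m, hm⟩ := exists_nat_gt (1 / t₀)
  have hmpos : (0 : ℝ) < m := lt_trans (by positivity) hm
  have hm0 : 0 < m := by exact_mod_cast hmpos
  have hmt : 1 / (m : ℝ) ≤ t₀ := by
    rw [div_le_iff₀ hmpos]
    rw [div_lt_iff₀ ht0] at hm
    linarith
  have hlim : Filter.Tendsto (fun n : ℕ => ((2 : ℝ) / 3) ^ n * p₀) Filter.atTop (nhds 0) := by
    have := (tendsto_pow_atTop_nhds_zero_of_lt_one (r := (2 : ℝ) / 3) (by norm_num)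
      (by norm_num)).mul_const p₀
    simpa using this
  have hge : ∀ n : ℕ, 1 / (2 * (m : ℝ)) ≤ (2 / 3) ^ n * p₀ := fun n =>
    ((hN n).2.2 (hhalf n) m hm0).trans (key n _ (by positivity) hmt)
  have := ge_of_tendsto' hlim hge
  have h5 : 0 < 1 / (2 * (m : ℝ)) := by positivity
  linarith

end Pool.Agent.T6.H59.FI
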